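import Pool.Agent.Lib.MP_39c2b7_co.H69.Sound
import Pool.Agent.Lib.MP_39c2b7_co.H69.Dom.D00
import Pool.Agent.Lib.MP_39c2b7_co.H69.Dom.D01
import Pool.Agent.Lib.MP_39c2b7_co.H69.Dom.D02
import Pool.Agent.Lib.MP_39c2b7_co.H69.Dom.D03

/-!
# Module DOM: all configurations are dominated
-/

set_option linter.all false

namespace StrongArb.H69

open StrongArb StrongArb.Data

theorem dom_0 (hF : FrameStatement) : p0.Dominated := domB_sound hF _ _ Dom.t0
theorem dom_1 (hF : FrameStatement) : p1.Dominated := domB_sound hF _ _ Dom.t1
theorem dom_2 (hF : FrameStatement) : p2.Dominated := domB_sound hF _ _ Dom.t2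
theorem dom_3 (hF : FrameStatement) : p3.Dominated := domB_sound hF _ _ Dom.t3
theorem dom_4 (hF : FrameStatement) : p4.Dominated := domB_sound hF _ _ Dom.t4
theorem dom_5 (hF : FrameStatement) : p5.Dominated := domB_sound hF _ _ Dom.t5
theorem dom_6 (hF : FrameStatement) : p6.Dominated := domB_sound hF _ _ Dom.t6
theorem dom_7 (hF : FrameStatement) : p7.Dominated := domB_sound hF _ _ Dom.t7
theorem dom_8 (hF : FrameStatement) : p8.Dominated := domB_sound hF _ _ Dom.t8
theorem dom_9 (hF : FrameStatement) : p9.Dominated := domB_sound hF _ _ Dom.t9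
theorem dom_10 (hF : FrameStatement) : p10.Dominated := domB_sound hF _ _ Dom.t10
theorem dom_11 (hF : FrameStatement) : p11.Dominated := domB_sound hF _ _ Dom.t11
theorem dom_12 (hF : FrameStatement) : p12.Dominated := domB_sound hF _ _ Dom.t12
theorem dom_13 (hF : FrameStatement) : p13.Dominated := domB_sound hF _ _ Dom.t13
theorem dom_14 (hF : FrameStatement) : p14.Dominated := domB_sound hF _ _ Dom.t14
theorem dom_15 (hF : FrameStatement) : p15.Dominated := domB_sound hF _ _ Dom.t15
theorem dom_16 (hF : FrameStatement) : p16.Dominated := domB_sound hF _ _ Dom.t16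
theorem dom_17 (hF : FrameStatement) : p17.Dominated := domB_sound hF _ _ Dom.t17
theorem dom_18 (hF : FrameStatement) : p18.Dominated := domB_sound hF _ _ Dom.t18
theorem dom_19 (hF : FrameStatement) : p19.Dominated := domB_sound hF _ _ Dom.t19
theorem dom_20 (hF : FrameStatement) : p20.Dominated := domB_sound hF _ _ Dom.t20
theorem dom_21 (hF : FrameStatement) : p21.Dominated := domB_sound hF _ _ Dom.t21
theorem dom_22 (hF : FrameStatement) : p22.Dominated := domB_sound hF _ _ Dom.t22
theorem dom_23 (hF : FrameStatement) : p23.Dominated := domB_sound hF _ _ Dom.t23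
theorem dom_24 (hF : FrameStatement) : p24.Dominated := domB_sound hF _ _ Dom.t24
theorem dom_25 (hF : FrameStatement) : p25.Dominated := domB_sound hF _ _ Dom.t25
theorem dom_26 (hF : FrameStatement) : p26.Dominated := domB_sound hF _ _ Dom.t26
theorem dom_27 (hF : FrameStatement) : p27.Dominated := domB_sound hF _ _ Dom.t27
theorem dom_28 (hF : FrameStatement) : p28.Dominated := domB_sound hF _ _ Dom.t28
theorem dom_29 (hF : FrameStatement) : p29.Dominated := domB_sound hF _ _ Dom.t29
theorem dom_30 (hF : FrameStatement) : p30.Dominated := domB_sound hF _ _ Dom.t30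
theorem dom_31 (hF : FrameStatement) : p31.Dominated := domB_sound hF _ _ Dom.t31
theorem dom_32 (hF : FrameStatement) : p32.Dominated := domB_sound hF _ _ Dom.t32
theorem dom_33 (hF : FrameStatement) : p33.Dominated := domB_sound hF _ _ Dom.t33
theorem dom_34 (hF : FrameStatement) : p34.Dominated := domB_sound hF _ _ Dom.t34
theorem dom_35 (hF : FrameStatement) : p35.Dominated := domB_sound hF _ _ Dom.t35
theorem dom_36 (hF : FrameStatement) : p36.Dominated := domB_sound hF _ _ Dom.t36
theorem dom_37 (hF : FrameStatement) : p37.Dominated := domB_sound hF _ _ Dom.t37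
theorem dom_38 (hF : FrameStatement) : p38.Dominated := domB_sound hF _ _ Dom.t38
theorem dom_39 (hF : FrameStatement) : p39.Dominated := domB_sound hF _ _ Dom.t39
theorem dom_40 (hF : FrameStatement) : p40.Dominated := domB_sound hF _ _ Dom.t40
theorem dom_41 (hF : FrameStatement) : p41.Dominated := domB_sound hF _ _ Dom.t41
theorem dom_42 (hF : FrameStatement) : p42.Dominated := domB_sound hF _ _ Dom.t42
theorem dom_43 (hF : FrameStatement) : p43.Dominated := domB_sound hF _ _ Dom.t43
theorem dom_44 (hF : FrameStatement) : p44.Dominated := domB_sound hF _ _ Dom.t44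
theorem dom_45 (hF : FrameStatement) : p45.Dominated := domB_sound hF _ _ Dom.t45
theorem dom_46 (hF : FrameStatement) : p46.Dominated := domB_sound hF _ _ Dom.t46
theorem dom_47 (hF : FrameStatement) : p47.Dominated := domB_sound hF _ _ Dom.t47
theorem dom_48 (hF : FrameStatement) : p48.Dominated := domB_sound hF _ _ Dom.t48
theorem dom_49 (hF : FrameStatement) : p49.Dominated := domB_sound hF _ _ Dom.t49
theorem dom_50 (hF : FrameStatement) : p50.Dominated := domB_sound hF _ _ Dom.t50
theorem dom_51 (hF : FrameStatement) : p51.Dominated := domB_sound hF _ _ Dom.t51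
theorem dom_52 (hF : FrameStatement) : p52.Dominated := domB_sound hF _ _ Dom.t52
theorem dom_53 (hF : FrameStatement) : p53.Dominated := domB_sound hF _ _ Dom.t53
theorem dom_54 (hF : FrameStatement) : p54.Dominated := domB_sound hF _ _ Dom.t54
theorem dom_55 (hF : FrameStatement) : p55.Dominated := domB_sound hF _ _ Dom.t55
theorem dom_56 (hF : FrameStatement) : p56.Dominated := domB_sound hF _ _ Dom.t56
theorem dom_57 (hF : FrameStatement) : p57.Dominated := domB_sound hF _ _ Dom.t57
theorem dom_58 (hF : FrameStatement) : p58.Dominated := domB_sound hF _ _ Dom.t58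
theorem dom_59 (hF : FrameStatement) : p59.Dominated := domB_sound hF _ _ Dom.t59
theorem dom_60 (hF : FrameStatement) : p60.Dominated := domB_sound hF _ _ Dom.t60
theorem dom_61 (hF : FrameStatement) : p61.Dominated := domB_sound hF _ _ Dom.t61
theorem dom_62 (hF : FrameStatement) : p62.Dominated := domB_sound hF _ _ Dom.t62
theorem dom_63 (hF : FrameStatement) : p63.Dominated := domB_sound hF _ _ Dom.t63
theorem dom_64 (hF : FrameStatement) : p64.Dominated := domB_sound hF _ _ Dom.t64
theorem dom_65 (hF : FrameStatement) : p65.Dominated := domB_sound hF _ _ Dom.t65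
theorem dom_66 (hF : FrameStatement) : p66.Dominated := domB_sound hF _ _ Dom.t66
theorem dom_67 (hF : FrameStatement) : p67.Dominated := domB_sound hF _ _ Dom.t67
theorem dom_68 (hF : FrameStatement) : p68.Dominated := domB_sound hF _ _ Dom.t68
theorem dom_69 (hF : FrameStatement) : p69.Dominated := domB_sound hF _ _ Dom.t69
theorem dom_70 (hF : FrameStatement) : p70.Dominated := domB_sound hF _ _ Dom.t70
theorem dom_71 (hF : FrameStatement) : p71.Dominated := domB_sound hF _ _ Dom.t71
theorem dom_72 (hF : FrameStatement) : p72.Dominated := domB_sound hF _ _ Dom.t72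
theorem dom_73 (hF : FrameStatement) : p73.Dominated := domB_sound hF _ _ Dom.t73
theorem dom_74 (hF : FrameStatement) : p74.Dominated := domB_sound hF _ _ Dom.t74
theorem dom_75 (hF : FrameStatement) : p75.Dominated := domB_sound hF _ _ Dom.t75
theorem dom_76 (hF : FrameStatement) : p76.Dominated := domB_sound hF _ _ Dom.t76

theorem p44_dominated (hF : FrameStatement) : P44.Dominated := dom_0 hF

theorem p45_dominated (hF : FrameStatement) : P45.Dominated := dom_1 hF

end StrongArb.H69
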