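import Pool.Agent.Lib.MP_39c2b7_co.Interfaces

/-!
# Module DOM: the bit-sliced domination checker (definitions)

All good colourings of the contracted graph `Q` (up to affine maps) are enumerated as the bits
`0, ..., n-1` of a few natural numbers (columns); the extension to the interior labels is given by
columns as well; connectivity in the slope graphs is computed by a relation matrix of columns.
All loops are written with recursors, so that the kernel evaluates them quickly.
-/

set_option linter.all false

namespace StrongArb.H69

open StrongArb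

universe u v

/-- fold written with the recursor -/
noncomputable def fr {α : Type u} {β : Type v} (f : α → β → β) (b : β) (l : List α) : β :=
  List.rec (motive := fun _ => β) b (fun a _ ih => f a ih) l

/-- case distinction written with the recursor -/
noncomputable def lc {α : Type u} {β : Type v} (b : β) (f : α → List α → β) (l : List α) : β :=
  List.rec (motive := fun _ => β) b (fun a t _ => f a t) l

/-- A column of elements of the field with three elements: (bits for the value two, bits for
the value one). -/
abbrev Tr : Type := Nat × Nat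

/-! ## arithmetic of columns -/

noncomputable def addZ (Z l : Nat) : Tr := (Nat.xor Z l, l)
noncomputable def addXYP (X Y P : Nat) : Tr :=
  addZ (Nat.lor X Y) (Nat.land (Nat.lor X Y) (Nat.xor P (Nat.land X Y)))
noncomputable def addT (a b : Tr) : Tr :=
  addXYP (Nat.xor a.2 b.1) (Nat.xor a.1 b.2) (Nat.lor a.2 b.2)
noncomputable def negT (a : Tr) : Tr := (a.2, a.1)
noncomputable def subT (a b : Tr) : Tr := addT a (negT b)

/-- positions where two columns agree -/
noncomputable def eqm (o : Nat) (a b : Tr) : Nat :=
  Nat.xor o (Nat.lor (Nat.xor a.1 b.1) (Nat.xor a.2 b.2))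

/-- canonical form of arbitrary bits -/
noncomputable def canT (h l : Nat) : Tr := (h, Nat.xor l (Nat.land l h))

/-- concatenation of blocks of `n` bits -/
noncomputable def cat (n : Nat) (l : List Nat) : Nat :=
  fr (fun x r => Nat.lor x (Nat.shiftLeft r n)) 0 l

/-- column of a point of the plane -/
abbrev Pc : Type := Tr × Tr

noncomputable def catP (n : Nat) (l : List Pc) : Pc :=
  ((cat n (fr (fun p r => p.1.1 :: r) [] l), cat n (fr (fun p r => p.1.2 :: r) [] l)),
    (cat n (fr (fun p r => p.2.1 :: r) [] l), cat n (fr (fun p r => p.2.2 :: r) [] l)))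

/-- the six points not on the line through `A`, `B` (relative position `j = 0, ..., 5`) -/
noncomputable def rel1 (b : Pc) (dx dy : Tr) : Pc := (subT b.1 dy, addT b.2 dx)
noncomputable def rel2 (b : Pc) (dx dy : Tr) : Pc := (addT b.1 dy, subT b.2 dx)
noncomputable def six0 (A B : Pc) (dx dy : Tr) : List Pc :=
  [rel1 A dx dy, rel2 A dx dy, rel1 (addT A.1 dx, addT A.2 dy) dx dy,
    rel2 (addT A.1 dx, addT A.2 dy) dx dy, rel1 (subT A.1 dx, subT A.2 dy) dx dy,
    rel2 (subT A.1 dx, subT A.2 dy) dx dy]
noncomputable def six (A B : Pc) : List Pc := six0 A B (subT B.1 A.1) (subT B.2 A.2)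

/-- the eight points different from `A` -/
noncomputable def eight0 (x0 x1 x2 y0 y1 y2 : Tr) : List Pc :=
  [(x0, y1), (x0, y2), (x1, y0), (x1, y1), (x1, y2), (x2, y0), (x2, y1), (x2, y2)]
noncomputable def eight (o : Nat) (A : Pc) : List Pc :=
  eight0 A.1 (addT A.1 (0, o)) (addT A.1 (o, 0)) A.2 (addT A.2 (0, o)) (addT A.2 (o, 0))

/-- all ones -/
noncomputable def ones (n : Nat) : Nat := Nat.sub (Nat.pow 2 n) 1

/-! ## tables -/

/-- labelled columns, newest label first -/
abbrev Cols : Type := List (Nat × Pc)

noncomputable def look (L : Cols) (b : Nat) : Pc :=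
  fr (fun e r => cond (Nat.beq e.1 b) e.2 r) ((0, 0), (0, 0)) L

/-- membership -/
noncomputable def mem (l : List Nat) (a : Nat) : Bool := fr (fun x r => cond (Nat.beq x a) true r) false l

noncomputable def nodup (l : List Nat) : Bool :=
  (List.rec (motive := fun _ => Bool) true (fun a t ih => and (not (mem t a)) ih) l)

noncomputable def all {α : Type} (p : α → Bool) (l : List α) : Bool :=
  fr (fun x r => cond (p x) r false) true l

noncomputable def labels {α : Type} (L : List (Nat × α)) : List Nat := fr (fun e r => e.1 :: r) [] L

/-- `getD` -/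
noncomputable def gt {α : Type} (d : α) (l : List α) (n : Nat) : α :=
  fr (fun x (r : Nat → α) (n : Nat) => Nat.rec (motive := fun _ => α) x (fun m _ => r m) n)
    (fun _ => d) l n

noncomputable def bit (m i : Nat) : Bool := Nat.beq (Nat.land (Nat.shiftRight m i) 1) 1

/-- adjacency given by a table of bit masks -/
noncomputable def adj (tab : List Nat) (a b : Nat) : Bool := bit (gt 0 tab a) b

/-! ## enumeration of the colourings of the contracted graph -/

/-- The block `b` is attached to the adjacent blocks `A`, `B` (`two`), or to `A` only. -/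
structure QStep where
  b : Nat
  two : Bool
  A : Nat
  B : Nat

noncomputable def radix (s : QStep) : Nat := cond s.two 6 8

noncomputable def newCol (n : Nat) (L : Cols) (s : QStep) : Pc :=
  catP n (cond s.two (six (look L s.A) (look L s.B)) (eight (ones n) (look L s.A)))

/-- repetition of a column -/
noncomputable def rep (n : Nat) (two : Bool) (x : Nat) : Nat :=
  cat n (cond two [x, x, x, x, x, x] [x, x, x, x, x, x, x, x])

noncomputable def repC (n : Nat) (two : Bool) (L : Cols) : Cols :=
  fr (fun e r => (e.1, ((rep n two e.2.1.1, rep n two e.2.1.2),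
    (rep n two e.2.2.1, rep n two e.2.2.2))) :: r) [] L

noncomputable def qstep (s : QStep) (q : Nat × Cols) : Nat × Cols :=
  (Nat.mul q.1 (radix s), (s.b, newCol q.1 q.2 s) :: repC q.1 s.two q.2)

/-- the first three blocks -/
noncomputable def base (t : Nat × Nat × Nat) : Nat × Cols :=
  (1, [(t.2.2, ((0, 0), (0, 1))), (t.2.1, ((0, 1), (0, 0))), (t.1, ((0, 0), (0, 0)))])

/-- all columns; `qs` has the newest step first -/
noncomputable def qcols (t : Nat × Nat × Nat) (qs : List QStep) : Nat × Cols :=
  fr qstep (base t) qs

/-! ## the relation procedure -/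

noncomputable def orAnd (m : Nat) (as : List Nat) : List Nat → List Nat :=
  fr (fun a (ih : List Nat → List Nat) rs =>
    lc [] (fun r rs' => Nat.lor a (Nat.land m r) :: ih rs') rs) (fun _ => []) as

noncomputable def zipCons (acc : List Nat) (as : List Nat) : List (List Nat) → List (List Nat) :=
  fr (fun a (ih : List (List Nat) → List (List Nat)) rs =>
    lc [] (fun row rows' => (a :: orAnd a row acc) :: ih rows') rs) (fun _ => []) as

/-- `accum ms rows p acc bad` -/
noncomputable def accum (ms : List Nat) : List (List Nat) → Nat → List Nat → Nat → List Nat × Nat :=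
  fr (fun m (ih : List (List Nat) → Nat → List Nat → Nat → List Nat × Nat) rows p acc bad =>
    lc (acc, bad) (fun row rows' =>
      cond (Nat.beq m 0) (ih rows' (Nat.succ p) acc bad)
        (ih rows' (Nat.succ p) (orAnd m acc row) (Nat.lor bad (Nat.land m (gt 0 acc p))))) rows)
    (fun _ _ acc bad => (acc, bad)) ms

/-- masks of the edges from the new label `v` with column `c` to the older labels -/
noncomputable def masks (tab : List Nat) (o v : Nat) (c : Tr) (L : List (Nat × Tr)) : List Nat :=
  fr (fun e r => cond (adj tab v e.1) (eqm o c e.2) 0 :: r) [] L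

noncomputable def relStep2 (o : Nat) (rows : List (List Nat)) (a : List Nat × Nat) :
    List (List Nat) × Nat :=
  ((o :: a.1) :: zipCons a.1 a.1 rows, a.2)

noncomputable def relStep (o : Nat) (ms : List Nat) (q : List (List Nat) × Nat) :
    List (List Nat) × Nat :=
  relStep2 o q.1 (accum ms q.1 0 (fr (fun _ r => 0 :: r) [] q.1) q.2)

/-- relation matrix (newest label first) and bad states -/
noncomputable def relP (tab : List Nat) (o : Nat) (L : List (Nat × Tr)) : List (List Nat) × Nat :=
  (List.rec (motive := fun _ => List (List Nat) × Nat) ([], 0)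
    (fun e t ih => relStep o (masks tab o e.1 e.2 t) ih) L)

/-- states in which two adjacent labels have the same colour -/
noncomputable def improper (tab : List Nat) (o : Nat) (L : Cols) : Nat :=
  (List.rec (motive := fun _ => Nat) 0
    (fun e t ih => fr (fun f r => cond (adj tab e.1 f.1)
      (Nat.lor r (Nat.land (eqm o e.2.1 f.2.1) (eqm o e.2.2 f.2.2))) r) ih t) L)

/-- the four forms -/
noncomputable def formT (s : Nat) (p : Pc) : Tr :=
  cond (Nat.beq s 0) p.1 (cond (Nat.beq s 1) p.2 (cond (Nat.beq s 2) (addT p.1 p.2) (subT p.1 p.2)))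

noncomputable def formL (s : Nat) (L : Cols) : List (Nat × Tr) :=
  fr (fun e r => (e.1, formT s e.2) :: r) [] L

/-- look up in a row -/
noncomputable def get1 (ls : List Nat) (y : Nat) : List Nat → Nat :=
  fr (fun l (ih : List Nat → Nat) row => lc 0 (fun r row' => cond (Nat.beq l y) r (ih row')) row)
    (fun _ => 0) ls

noncomputable def getR (ls : List Nat) (y : Nat) : List (List Nat) → List Nat :=
  fr (fun l (ih : List (List Nat) → List Nat) rows =>
    lc [] (fun r rows' => cond (Nat.beq l y) r (ih rows')) rows) (fun _ => []) ls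

/-- ring connections of `K` which are not connections of `Q` -/
noncomputable def viol1 (o : Nat) (lk lq : List Nat) (rowK rowQ : List Nat)
    (R : List (Nat × Nat)) (f : Nat) : Nat :=
  fr (fun e r => Nat.lor r (Nat.land (get1 lk e.1 rowK) (Nat.xor o (get1 lq e.2 rowQ)))) f R

/-- `R` lists the pairs (ring label, its block) -/
noncomputable def viol (o : Nat) (lk lq : List Nat) (K Q : List (List Nat))
    (R : List (Nat × Nat)) (f : Nat) : Nat :=
  (List.rec (motive := fun _ => Nat) f
    (fun e t ih => viol1 o lk lq (getR lk e.1 K) (getR lq e.2 Q) t ih) R)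

/-! ## the interior labels -/

/-- `v` is coloured relative to the labels `A`, `B`; the columns of the relative position are
given in chunks of `w` bits. -/
structure IStep where
  v : Nat
  A : Nat
  B : Nat
  h : List Nat
  l : List Nat
  s : List Nat

/-- product of a column `d` with the column `(h, l)` -/
noncomputable def mulT (h l : Nat) (d : Tr) : Tr :=
  (Nat.lor (Nat.land h d.2) (Nat.land l d.1), Nat.lor (Nat.land h d.1) (Nat.land l d.2))

/-- change the sign where the bit of `s` is one -/
noncomputable def sgn0 (m : Nat) (d : Tr) : Tr := (Nat.xor d.1 m, Nat.xor d.2 m)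
noncomputable def sgn (s : Nat) (d : Tr) : Tr := sgn0 (Nat.land s (Nat.xor d.1 d.2)) d

noncomputable def irel0 (A : Pc) (dx dy : Tr) (h l s : Nat) : Pc :=
  (addT (addT A.1 (mulT h l dx)) (negT (sgn s dy)), addT (addT A.2 (mulT h l dy)) (sgn s dx))
noncomputable def irel (A B : Pc) (h l s : Nat) : Pc :=
  irel0 A (subT B.1 A.1) (subT B.2 A.2) h l s

noncomputable def canP (p : Pc) : Pc := (canT p.1.1 p.1.2, canT p.2.1 p.2.2)

noncomputable def icol (w : Nat) (L : Cols) (s : IStep) : Nat × Pc :=
  (s.v, canP (irel (look L s.A) (look L s.B) (cat w s.h) (cat w s.l) (cat w s.s)))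

noncomputable def icols (w : Nat) (is : List IStep) (L : Cols) : Cols :=
  fr (fun s r => icol w r s :: r) L is

/-! ## the certificate -/

structure DCert where
  tri : Nat × Nat × Nat
  /-- newest first -/
  qs : List QStep
  tabQ : List Nat
  tabK : List Nat
  /-- ring labels, newest first -/
  ring : List Nat
  /-- interior labels, newest first -/
  is : List IStep
  w : Nat

/-- cyclically consecutive pairs -/
noncomputable def cycP0 (x0 : Nat) (l : List Nat) : Nat → List (Nat × Nat) :=
  fr (fun y (ih : Nat → List (Nat × Nat)) x => (x, y) :: ih y) (fun x => [(x, x0)]) l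

noncomputable def cycP (l : List Nat) : List (Nat × Nat) := lc [] (fun x t => cycP0 x t x) l

/-- the edges of `K`: spokes and rims of the wheels -/
noncomputable def edgesAux (links : List (List Nat)) : Nat → List (Nat × Nat) :=
  fr (fun l (ih : Nat → List (Nat × Nat)) v =>
    fr (fun a r => (v, a) :: r) (fr (fun e r => e :: r) (ih (Nat.succ v)) (cycP l)) l)
    (fun _ => []) links

noncomputable def edges (P : Pat) : List (Nat × Nat) := edgesAux P.links 0

noncomputable def ringCols (blk : List Nat) (Q : Cols) (ring : List Nat) : Cols :=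
  fr (fun r t => (r, look Q (gt 0 blk r)) :: t) [] ring

noncomputable def ringPairs (blk : List Nat) (ring : List Nat) : List (Nat × Nat) :=
  fr (fun r t => (r, gt 0 blk r) :: t) [] ring

/-- the claimed edges of `Q` are edges -/
noncomputable def checkQ (E : List (Nat × Nat)) (tab : List Nat) (lq : List Nat) : Bool :=
  all (fun b => all (fun c => cond (adj tab b c)
    (and (not (Nat.beq b c)) (not (all (fun e => not (or (and (Nat.beq e.1 b) (Nat.beq e.2 c))
      (and (Nat.beq e.1 c) (Nat.beq e.2 b)))) E))) true) lq) lq

/-- the edges of `K` are in the table -/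
noncomputable def checkK (E : List (Nat × Nat)) (tab : List Nat) (lk : List Nat) : Bool :=
  all (fun e => and (and (adj tab e.1 e.2) (adj tab e.2 e.1)) (and (mem lk e.1) (mem lk e.2))) E

/-- labels of the blocks -/
noncomputable def qlabels (t : Nat × Nat × Nat) (qs : List QStep) : List Nat :=
  fr (fun s r => s.b :: r) [t.2.2, t.2.1, t.1] qs

/-- the steps attach blocks to old ones along edges of `Q` -/
noncomputable def checkSteps (tabQ : List Nat) (t : Nat × Nat × Nat) (qs : List QStep) : Bool :=
  (List.rec (motive := fun _ => Bool)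
    (and (adj tabQ t.1 t.2.1) (and (adj tabQ t.1 t.2.2) (adj tabQ t.2.1 t.2.2)))
    (fun s r ih => and (and (and (adj tabQ s.b s.A) (mem (qlabels t r) s.A))
      (cond s.two (and (and (adj tabQ s.b s.B) (mem (qlabels t r) s.B))
      (adj tabQ s.A s.B)) true)) ih) qs)

noncomputable def checkForm (tabQ tabK : List Nat) (o : Nat) (lk lq : List Nat) (K Q : Cols)
    (R : List (Nat × Nat)) (s : Nat) (f : Nat × Nat) : Nat × Nat :=
  (fun (rk rq : List (List Nat) × Nat) =>
    (viol o lk lq rk.1 rq.1 R (Nat.lor f.1 rk.2), Nat.lor f.2 rq.2))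
    (relP tabK o (formL s K)) (relP tabQ o (formL s Q))

noncomputable def final (o : Nat) (f : Nat × Nat) : Bool :=
  Nat.beq (Nat.land f.1 (Nat.xor o f.2)) 0

noncomputable def domCore (C : DCert) (o : Nat) (lk lq : List Nat) (K Q : Cols)
    (R : List (Nat × Nat)) : Bool :=
  final o (checkForm C.tabQ C.tabK o lk lq K Q R 0 (checkForm C.tabQ C.tabK o lk lq K Q R 1
    (checkForm C.tabQ C.tabK o lk lq K Q R 2 (checkForm C.tabQ C.tabK o lk lq K Q R 3
      (improper C.tabK o K, improper C.tabQ o Q)))))

noncomputable def domStruct (P : Pat) (C : DCert) (E : List (Nat × Nat)) (lk lq : List Nat)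
    (R : List (Nat × Nat)) : Bool :=
  and (and (nodup lk) (nodup lq)) (and (and (all (fun e => mem lq e.2) R)
    (checkSteps C.tabQ C.tri C.qs))
    (and (checkQ (fr (fun e r => (gt 0 P.blk e.1, gt 0 P.blk e.2) :: r) [] E) C.tabQ lq)
      (checkK E C.tabK lk)))

noncomputable def dom2 (P : Pat) (C : DCert) (q : Nat × Cols) (K : Cols) : Bool :=
  and (domStruct P C (edges P) (labels K) (labels q.2) (ringPairs P.blk C.ring))
    (domCore C (ones q.1) (labels K) (labels q.2) K q.2 (ringPairs P.blk C.ring))

noncomputable def dom1 (P : Pat) (C : DCert) (q : Nat × Cols) : Bool :=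
  dom2 P C q (icols C.w C.is (ringCols P.blk q.2 C.ring))

/-- the ring labels of the certificate are all ring labels of the pattern -/
noncomputable def checkRing (P : Pat) (C : DCert) : Bool :=
  all (fun r => or (Nat.blt r P.links.length) (mem C.ring r)) (List.range P.N)

/-- **the domination checker** -/
noncomputable def domB (P : Pat) (C : DCert) : Bool :=
  and (checkRing P C) (dom1 P C (qcols C.tri C.qs))

end StrongArb.H69
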