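import Pool.Agent.Lib.MP_39c2b7_co.H69.Sem

/-!
# The enumeration of the colourings of the contracted graph
-/

set_option linter.all false

namespace StrongArb.H69

open StrongArb SimpleGraph

lemma look_spec {L : Cols} {b : ℕ} {Φ : Pc → Prop} (hb : b ∈ L.map Prod.fst)
    (h : ∀ e ∈ L, e.1 = b → Φ e.2) : Φ (look L b) := by
  induction L with
  | nil => simp at hb
  | cons e t ih =>
    have h0 : look (e :: t) b = cond (Nat.beq e.1 b) e.2 (look t b) := rfl
    rw [h0]
    cases h1 : Nat.beq e.1 b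
    · rw [cond_false]
      rw [List.map_cons, List.mem_cons] at hb
      have hne : b ≠ e.1 := by
        rintro rfl
        rw [Nat.beq_refl] at h1
        exact Bool.noConfusion h1
      exact ih (hb.resolve_left hne) (fun f hf => h f (List.mem_cons_of_mem _ hf))
    · rw [cond_true]
      exact h e (List.mem_cons_self ..) (beq_iff.1 h1)

lemma smP_look {n : ℕ} {L : Cols} (h : ∀ e ∈ L, SmP n e.2) (b : ℕ) : SmP n (look L b) := by
  induction L with
  | nil => exact ⟨⟨sm_zero _, sm_zero _⟩, ⟨sm_zero _, sm_zero _⟩⟩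
  | cons e t ih =>
    have h0 : look (e :: t) b = cond (Nat.beq e.1 b) e.2 (look t b) := rfl
    rw [h0]
    cases Nat.beq e.1 b
    · exact ih (fun f hf => h f (List.mem_cons_of_mem _ hf))
    · exact h e (List.mem_cons_self ..)

/-! ## repetition -/

/-- repetition of one column pair -/
noncomputable def repE (n : ℕ) (two : Bool) (e : ℕ × Pc) : ℕ × Pc :=
  (e.1, ((rep n two e.2.1.1, rep n two e.2.1.2), (rep n two e.2.2.1, rep n two e.2.2.2)))

lemma repC_eq (n : ℕ) (two : Bool) (L : Cols) : repC n two L = L.map (repE n two) :=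
  fr_map (repE n two) L

lemma rep_eq (n : ℕ) (two : Bool) (x : ℕ) :
    rep n two x = cat n (List.replicate (cond two 6 8) x) := by
  cases two <;> rfl

lemma tb_rep {n : ℕ} {two : Bool} {x : ℕ} (hx : Sm n x) {i d : ℕ} (hi : i < n)
    (hd : d < cond two 6 8) : (rep n two x).testBit (d * n + i) = x.testBit i := by
  rw [rep_eq, tb_cat _ hi]
  · congr 1
    rw [List.getD_eq_getElem _ _ (by simpa using hd), List.getElem_replicate]
  · intro y hy
    rw [List.eq_of_mem_replicate hy]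
    exact hx

lemma sm_rep {n : ℕ} {two : Bool} {x : ℕ} (hx : Sm n x) : Sm (n * cond two 6 8) (rep n two x) := by
  rw [rep_eq]
  have := sm_cat (n := n) (l := List.replicate (cond two 6 8) x) (by
    intro y hy
    rw [List.eq_of_mem_replicate hy]
    exact hx)
  rwa [List.length_replicate] at this

lemma repE_pv {n : ℕ} {two : Bool} {e : ℕ × Pc} (he : SmP n e.2) {i d : ℕ} (hi : i < n)
    (hd : d < cond two 6 8) : pv (repE n two e).2 (d * n + i) = pv e.2 i ∧
      (CanP e.2 i → CanP (repE n two e).2 (d * n + i)) := by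
  have h1 := tb_rep (two := two) he.1.1 hi hd
  have h2 := tb_rep (two := two) he.1.2 hi hd
  have h3 := tb_rep (two := two) he.2.1 hi hd
  have h4 := tb_rep (two := two) he.2.2 hi hd
  constructor
  · unfold pv tv repE
    simp only [h1, h2, h3, h4]
  · rintro ⟨h5, h6⟩
    constructor
    · unfold Can at h5 ⊢
      unfold repE
      simp only [h1, h2]
      exact h5
    · unfold Can at h6 ⊢
      unfold repE
      simp only [h3, h4]
      exact h6

lemma repE_sm {n : ℕ} {two : Bool} {e : ℕ × Pc} (he : SmP n e.2) :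
    SmP (n * cond two 6 8) (repE n two e).2 :=
  ⟨⟨sm_rep he.1.1, sm_rep he.1.2⟩, ⟨sm_rep he.2.1, sm_rep he.2.2⟩⟩

/-! ## the invariant -/

/-- state `i` of the columns `L` is the colouring `c` -/
def Match (L : Cols) (i : ℕ) (c : ℕ → Pt) : Prop := ∀ e ∈ L, pv e.2 i = c e.1 ∧ CanP e.2 i

lemma qstep_fst (s : QStep) (q : ℕ × Cols) : (qstep s q).1 = q.1 * cond s.two 6 8 := rfl

lemma qstep_snd (s : QStep) (q : ℕ × Cols) :
    (qstep s q).2 = (s.b, newCol q.1 q.2 s) :: repC q.1 s.two q.2 := rfl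

lemma newCol_sm {n : ℕ} {L : Cols} (h : ∀ e ∈ L, SmP n e.2) (s : QStep) :
    SmP (n * cond s.two 6 8) (newCol n L s) := by
  have h0 : newCol n L s = catP n (cond s.two (six (look L s.A) (look L s.B))
    (eight (ones n) (look L s.A))) := rfl
  rw [h0]
  cases s.two
  · exact smP_catP (smP_eight (smP_look h _))
  · exact smP_catP (smP_six (smP_look h _) (smP_look h _))

lemma qstep_sm {q : ℕ × Cols} (h : ∀ e ∈ q.2, SmP q.1 e.2) (s : QStep) :
    ∀ e ∈ (qstep s q).2, SmP (qstep s q).1 e.2 := by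
  intro e he
  rw [qstep_snd, List.mem_cons, repC_eq] at he
  rw [qstep_fst]
  rcases he with rfl | he
  · exact newCol_sm h s
  · obtain ⟨f, hf, rfl⟩ := List.mem_map.1 he
    exact repE_sm (h f hf)

lemma qstep_labels (s : QStep) (q : ℕ × Cols) :
    (qstep s q).2.map Prod.fst = s.b :: q.2.map Prod.fst := by
  rw [qstep_snd, List.map_cons, repC_eq, List.map_map]
  rfl

/-- what is needed about the colouring for a step -/
structure StepOK (c : ℕ → Pt) (s : QStep) (l : List ℕ) : Prop where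
  hA : s.A ∈ l
  nA : c s.A ≠ c s.b
  hB : s.two = true → s.B ∈ l
  nAB : s.two = true → c s.A ≠ c s.B
  nc : s.two = true → NonCol (c s.A) (c s.B) (c s.b)

lemma qstep_cover {q : ℕ × Cols} (h : ∀ e ∈ q.2, SmP q.1 e.2) {c : ℕ → Pt} {s : QStep}
    (hs : StepOK c s (q.2.map Prod.fst)) {i : ℕ} (hi : i < q.1) (hm : Match q.2 i c) :
    ∃ j < (qstep s q).1, Match (qstep s q).2 j c := by
  have hA := look_spec (Φ := fun p => pv p i = c s.A ∧ CanP p i) hs.hA
    (fun e he h => by rw [← h]; exact hm e he)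
  obtain ⟨d, hd, hd1, hd2⟩ : ∃ d < cond s.two 6 8, pv (newCol q.1 q.2 s) (d * q.1 + i) = c s.b ∧
      CanP (newCol q.1 q.2 s) (d * q.1 + i) := by
    have h0 : newCol q.1 q.2 s = catP q.1 (cond s.two (six (look q.2 s.A) (look q.2 s.B))
      (eight (ones q.1) (look q.2 s.A))) := rfl
    rw [h0]
    have hB' := hs.hB
    have hAB' := hs.nAB
    have hnc' := hs.nc
    cases h2 : s.two
    · obtain ⟨d, hd, h3, h4⟩ := eight_cover (c := c s.b) hi hA.2 (by rw [hA.1]; exact hs.nA)
      obtain ⟨h5, h6⟩ := pv_catP (smP_eight (smP_look h s.A)) hi d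
      exact ⟨d, hd, h5.trans h3, h6 h4⟩
    · have hB := look_spec (Φ := fun p => pv p i = c s.B ∧ CanP p i) (hB' h2)
        (fun e he h => by rw [← h]; exact hm e he)
      obtain ⟨d, hd, h3, h4⟩ := six_cover (c := c s.b) hA.2 hB.2
        (by rw [hA.1, hB.1]; exact hAB' h2) (by rw [hA.1, hB.1]; exact hnc' h2)
      obtain ⟨h5, h6⟩ := pv_catP (smP_six (smP_look h s.A) (smP_look h s.B)) hi d
      exact ⟨d, hd, h5.trans h3, h6 h4⟩
  refine ⟨d * q.1 + i, ?_, ?_⟩
  · rw [qstep_fst]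
    have : (d + 1) * q.1 ≤ (cond s.two 6 8) * q.1 := Nat.mul_le_mul_right _ hd
    rw [Nat.mul_comm q.1]
    rw [Nat.add_mul] at this
    omega
  · intro e he
    rw [qstep_snd, List.mem_cons, repC_eq] at he
    rcases he with rfl | he
    · exact ⟨hd1, hd2⟩
    · obtain ⟨f, hf, rfl⟩ := List.mem_map.1 he
      obtain ⟨h3, h4⟩ := repE_pv (h f hf) hi hd
      obtain ⟨h5, h6⟩ := hm f hf
      exact ⟨h3.trans h5, h4 h6⟩

/-! ## the base -/

lemma base_sm (t : ℕ × ℕ × ℕ) : ∀ e ∈ (base t).2, SmP (base t).1 e.2 := by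
  intro e he
  have h0 : (base t).2 = [(t.2.2, ((0, 0), (0, 1))), (t.2.1, ((0, 1), (0, 0))),
    (t.1, ((0, 0), (0, 0)))] := rfl
  have h1 : Sm 1 1 := by
    intro j hj
    exact Nat.testBit_lt_two_pow (Nat.one_lt_two_pow (by omega))
  have z := sm_zero 1
  rw [h0] at he
  show SmP 1 e.2
  simp only [List.mem_cons, List.not_mem_nil, or_false] at he
  rcases he with rfl | rfl | rfl
  · exact ⟨⟨z, z⟩, ⟨z, h1⟩⟩
  · exact ⟨⟨z, h1⟩, ⟨z, z⟩⟩
  · exact ⟨⟨z, z⟩, ⟨z, z⟩⟩

lemma base_match (t : ℕ × ℕ × ℕ) {c : ℕ → Pt} (h1 : c t.1 = (0, 0)) (h2 : c t.2.1 = (1, 0))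
    (h3 : c t.2.2 = (0, 1)) : Match (base t).2 0 c := by
  intro e he
  have h0 : (base t).2 = [(t.2.2, ((0, 0), (0, 1))), (t.2.1, ((0, 1), (0, 0))),
    (t.1, ((0, 0), (0, 0)))] := rfl
  rw [h0] at he
  simp only [List.mem_cons, List.not_mem_nil, or_false] at he
  rcases he with rfl | rfl | rfl
  · refine ⟨?_, ?_, ?_⟩
    · rw [h3]
      simp [pv, tv]
    · simp [Can]
    · simp [Can]
  · refine ⟨?_, ?_, ?_⟩
    · rw [h2]
      simp [pv, tv]
    · simp [Can]
    · simp [Can]
  · refine ⟨?_, ?_, ?_⟩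
    · rw [h1]
      simp [pv, tv]
    · simp [Can]
    · simp [Can]

/-! ## all steps -/

lemma qcols_nil (t : ℕ × ℕ × ℕ) : qcols t [] = base t := rfl

lemma qcols_cons (t : ℕ × ℕ × ℕ) (s : QStep) (qs : List QStep) :
    qcols t (s :: qs) = qstep s (qcols t qs) := rfl

lemma qcols_labels (t : ℕ × ℕ × ℕ) (qs : List QStep) :
    (qcols t qs).2.map Prod.fst = qlabels t qs := by
  induction qs with
  | nil => rfl
  | cons s qs ih =>
    rw [qcols_cons, qstep_labels, ih]
    rfl

lemma qcols_sm (t : ℕ × ℕ × ℕ) (qs : List QStep) :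
    ∀ e ∈ (qcols t qs).2, SmP (qcols t qs).1 e.2 := by
  induction qs with
  | nil => exact base_sm t
  | cons s qs ih =>
    rw [qcols_cons]
    exact qstep_sm ih s

/-- all steps are fine for `c` -/
def StepsOK (c : ℕ → Pt) (t : ℕ × ℕ × ℕ) : List QStep → Prop
  | [] => True
  | s :: qs => StepOK c s (qlabels t qs) ∧ StepsOK c t qs

theorem qcols_cover {c : ℕ → Pt} {t : ℕ × ℕ × ℕ} {qs : List QStep} (h : StepsOK c t qs)
    (h1 : c t.1 = (0, 0)) (h2 : c t.2.1 = (1, 0)) (h3 : c t.2.2 = (0, 1)) :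
    ∃ i < (qcols t qs).1, Match (qcols t qs).2 i c := by
  induction qs with
  | nil => exact ⟨0, Nat.one_pos, base_match t h1 h2 h3⟩
  | cons s qs ih =>
    obtain ⟨i, hi, hm⟩ := ih h.2
    rw [qcols_cons]
    refine qstep_cover (qcols_sm t qs) ?_ hi hm
    rw [qcols_labels]
    exact h.1

end StrongArb.H69
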