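import Pool.Agent.Lib.MP_39c2b7_co.H69.Checker

/-!
# Semantics of the column arithmetic
-/

set_option linter.all false

namespace StrongArb.H69

open StrongArb

lemma tb_xor (x y i : Nat) : (Nat.xor x y).testBit i = Bool.xor (x.testBit i) (y.testBit i) :=
  Nat.testBit_xor x y i

lemma tb_or (x y i : Nat) : (Nat.lor x y).testBit i = (x.testBit i || y.testBit i) :=
  Nat.testBit_or x y i

lemma tb_and (x y i : Nat) : (Nat.land x y).testBit i = (x.testBit i && y.testBit i) :=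
  Nat.testBit_and x y i

lemma tb_shl (x n i : Nat) : (Nat.shiftLeft x n).testBit i = (decide (n ≤ i) && x.testBit (i - n)) :=
  Nat.testBit_shiftLeft x

lemma tb_ones (n i : Nat) : (ones n).testBit i = decide (i < n) := by
  have : ones n = 2 ^ n - 1 := rfl
  rw [this, Nat.testBit_two_pow_sub_one]

/-- value of a column at position `i` -/
def tv (a : Tr) (i : ℕ) : ZMod 3 :=
  if a.1.testBit i then 2 else if a.2.testBit i then 1 else 0

def Can (a : Tr) (i : ℕ) : Prop := ¬ (a.1.testBit i = true ∧ a.2.testBit i = true)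

def pv (p : Pc) (i : ℕ) : Pt := (tv p.1 i, tv p.2 i)

def CanP (p : Pc) (i : ℕ) : Prop := Can p.1 i ∧ Can p.2 i

/-- no bits at positions `≥ n` -/
def Sm (n x : ℕ) : Prop := ∀ j, n ≤ j → x.testBit j = false

def SmT (n : ℕ) (a : Tr) : Prop := Sm n a.1 ∧ Sm n a.2

def SmP (n : ℕ) (p : Pc) : Prop := SmT n p.1 ∧ SmT n p.2

lemma sm_zero (n : ℕ) : Sm n 0 := fun j _ => Nat.zero_testBit j

lemma sm_ones (n : ℕ) : Sm n (ones n) := by
  intro j hj
  rw [tb_ones]
  simpa using hj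

lemma addT_fst (a b : Tr) (i : ℕ) : (addT a b).1.testBit i =
    Bool.xor ((Bool.xor (a.2.testBit i) (b.1.testBit i)) || (Bool.xor (a.1.testBit i) (b.2.testBit i)))
      ((((Bool.xor (a.2.testBit i) (b.1.testBit i)) ||
        (Bool.xor (a.1.testBit i) (b.2.testBit i)))) &&
      (Bool.xor (a.2.testBit i || b.2.testBit i) ((Bool.xor (a.2.testBit i) (b.1.testBit i)) &&
        (Bool.xor (a.1.testBit i) (b.2.testBit i))))) := by
  simp only [addT, addXYP, addZ, tb_xor, tb_or, tb_and]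

lemma addT_snd (a b : Tr) (i : ℕ) : (addT a b).2.testBit i =
      ((((Bool.xor (a.2.testBit i) (b.1.testBit i)) ||
        (Bool.xor (a.1.testBit i) (b.2.testBit i)))) &&
      (Bool.xor (a.2.testBit i || b.2.testBit i) ((Bool.xor (a.2.testBit i) (b.1.testBit i)) &&
        (Bool.xor (a.1.testBit i) (b.2.testBit i))))) := by
  simp only [addT, addXYP, addZ, tb_xor, tb_or, tb_and]

lemma can_addT (a b : Tr) (i : ℕ) : Can (addT a b) i := by
  unfold Can
  rw [addT_fst, addT_snd]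
  generalize a.1.testBit i = a1
  generalize a.2.testBit i = a2
  generalize b.1.testBit i = b1
  generalize b.2.testBit i = b2
  revert a1 a2 b1 b2
  decide

lemma tv_addT {a b : Tr} {i : ℕ} (ha : Can a i) (hb : Can b i) :
    tv (addT a b) i = tv a i + tv b i := by
  unfold Can at ha hb
  unfold tv
  rw [addT_fst, addT_snd]
  revert ha hb
  generalize a.1.testBit i = a1
  generalize a.2.testBit i = a2
  generalize b.1.testBit i = b1
  generalize b.2.testBit i = b2
  revert a1 a2 b1 b2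
  decide

lemma smT_addT {n : ℕ} {a b : Tr} (ha : SmT n a) (hb : SmT n b) : SmT n (addT a b) := by
  constructor
  · intro j hj
    rw [addT_fst, ha.1 j hj, ha.2 j hj, hb.1 j hj, hb.2 j hj]
    rfl
  · intro j hj
    rw [addT_snd, ha.1 j hj, ha.2 j hj, hb.1 j hj, hb.2 j hj]
    rfl

lemma can_negT {a : Tr} {i : ℕ} (ha : Can a i) : Can (negT a) i := fun h => ha ⟨h.2, h.1⟩

lemma tv_negT {a : Tr} {i : ℕ} (ha : Can a i) : tv (negT a) i = - tv a i := by
  unfold Can at ha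
  show (if a.2.testBit i = true then (2 : ZMod 3) else if a.1.testBit i = true then 1 else 0) =
    - (if a.1.testBit i = true then (2 : ZMod 3) else if a.2.testBit i = true then 1 else 0)
  cases h1 : a.1.testBit i <;> cases h2 : a.2.testBit i <;> simp [h1, h2] at ha ⊢ <;> decide

lemma smT_negT {n : ℕ} {a : Tr} (ha : SmT n a) : SmT n (negT a) := ⟨ha.2, ha.1⟩

lemma can_subT (a b : Tr) (i : ℕ) : Can (subT a b) i := can_addT _ _ _

lemma tv_subT {a b : Tr} {i : ℕ} (ha : Can a i) (hb : Can b i) :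
    tv (subT a b) i = tv a i - tv b i := by
  rw [subT, tv_addT ha (can_negT hb), tv_negT hb, sub_eq_add_neg]

lemma smT_subT {n : ℕ} {a b : Tr} (ha : SmT n a) (hb : SmT n b) : SmT n (subT a b) :=
  smT_addT ha (smT_negT hb)

lemma can_canT (h l i : ℕ) : Can (canT h l) i := by
  unfold Can
  simp only [canT, tb_xor, tb_and]
  generalize h.testBit i = a1
  generalize l.testBit i = a2
  revert a1 a2
  decide

lemma canP_canP (p : Pc) (i : ℕ) : CanP (canP p) i := ⟨can_canT _ _ _, can_canT _ _ _⟩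

lemma eqm_iff {o : ℕ} {a b : Tr} {i : ℕ} (ho : o.testBit i = true) (ha : Can a i)
    (hb : Can b i) : (eqm o a b).testBit i = true ↔ tv a i = tv b i := by
  unfold Can at ha hb
  unfold tv
  simp only [eqm, tb_xor, tb_or, ho]
  revert ha hb
  generalize a.1.testBit i = a1
  generalize a.2.testBit i = a2
  generalize b.1.testBit i = b1
  generalize b.2.testBit i = b2
  revert a1 a2 b1 b2
  decide

lemma can_formT {s : ℕ} {p : Pc} {i : ℕ} (hp : CanP p i) : Can (formT s p) i := by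
  unfold formT
  cases Nat.beq s 0
  · cases Nat.beq s 1
    · cases Nat.beq s 2
      · exact can_subT _ _ _
      · exact can_addT _ _ _
    · exact hp.2
  · exact hp.1

lemma tv_formT (s : Fin 4) {p : Pc} {i : ℕ} (hp : CanP p i) :
    tv (formT (s : ℕ) p) i = form s (pv p i) := by
  fin_cases s
  · rfl
  · rfl
  · show tv (addT p.1 p.2) i = _
    rw [tv_addT hp.1 hp.2]
    rfl
  · show tv (subT p.1 p.2) i = _
    rw [tv_subT hp.1 hp.2]
    rfl

/-! ## concatenation -/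

lemma cat_nil (n : ℕ) : cat n [] = 0 := rfl

lemma cat_cons (n x : ℕ) (l : List ℕ) : cat n (x :: l) = Nat.lor x (Nat.shiftLeft (cat n l) n) :=
  rfl

lemma tb_cat {n : ℕ} {l : List ℕ} (hl : ∀ x ∈ l, Sm n x) {i : ℕ} (hi : i < n) (d : ℕ) :
    (cat n l).testBit (d * n + i) = (l.getD d 0).testBit i := by
  induction l generalizing d with
  | nil => simp [cat_nil]
  | cons x l ih =>
    have ih' := ih (fun y hy => hl y (List.mem_cons_of_mem _ hy))
    rw [cat_cons, tb_or, tb_shl]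
    rcases d with _ | d
    · have : ¬ n ≤ i := by omega
      simp [this]
    · have h1 : n ≤ (d + 1) * n + i := by nlinarith
      have h2 : (d + 1) * n + i - n = d * n + i := by
        rw [Nat.add_mul]; omega
      rw [hl x (List.mem_cons_self ..) _ h1, h2, ih' d]
      simp [h1]

lemma sm_cat {n : ℕ} {l : List ℕ} (hl : ∀ x ∈ l, Sm n x) : Sm (n * l.length) (cat n l) := by
  induction l with
  | nil => exact sm_zero _
  | cons x l ih =>
    have ih' := ih (fun y hy => hl y (List.mem_cons_of_mem _ hy))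
    intro j hj
    rw [cat_cons, tb_or, tb_shl]
    rw [List.length_cons, Nat.mul_add, Nat.mul_one] at hj
    rw [hl x (List.mem_cons_self ..) j (by omega), ih' (j - n) (by omega)]
    simp

lemma fr_map {α : Type*} {β : Type*} (f : α → β) (l : List α) :
    fr (fun p r => f p :: r) [] l = l.map f := by
  induction l with
  | nil => rfl
  | cons a l ih =>
    show f a :: fr (fun p r => f p :: r) [] l = _
    rw [ih]; rfl

lemma pv_catP {n : ℕ} {l : List Pc} (hl : ∀ x ∈ l, SmP n x) {i : ℕ} (hi : i < n) (d : ℕ) :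
    pv (catP n l) (d * n + i) = pv (l.getD d ((0, 0), (0, 0))) i ∧
    (CanP (l.getD d ((0, 0), (0, 0))) i → CanP (catP n l) (d * n + i)) := by
  have hg : ∀ f : Pc → ℕ, f ((0, 0), (0, 0)) = 0 →
      ((l.map f).getD d 0) = f (l.getD d ((0, 0), (0, 0))) := by
    intro f hf
    have h := List.getD_map l (((0, 0), (0, 0)) : Pc) (n := d) f
    rw [hf] at h
    exact h
  have e1 : (catP n l).1.1.testBit (d * n + i) = (l.getD d ((0, 0), (0, 0))).1.1.testBit i := by
    show (cat n (fr (fun (p : Pc) r => p.1.1 :: r) [] l)).testBit _ = _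
    rw [fr_map (fun p : Pc => p.1.1), tb_cat _ hi, hg _ rfl]
    intro x hx
    obtain ⟨p, hp, rfl⟩ := List.mem_map.1 hx
    exact (hl p hp).1.1
  have e2 : (catP n l).1.2.testBit (d * n + i) = (l.getD d ((0, 0), (0, 0))).1.2.testBit i := by
    show (cat n (fr (fun (p : Pc) r => p.1.2 :: r) [] l)).testBit _ = _
    rw [fr_map (fun p : Pc => p.1.2), tb_cat _ hi, hg _ rfl]
    intro x hx
    obtain ⟨p, hp, rfl⟩ := List.mem_map.1 hx
    exact (hl p hp).1.2
  have e3 : (catP n l).2.1.testBit (d * n + i) = (l.getD d ((0, 0), (0, 0))).2.1.testBit i := by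
    show (cat n (fr (fun (p : Pc) r => p.2.1 :: r) [] l)).testBit _ = _
    rw [fr_map (fun p : Pc => p.2.1), tb_cat _ hi, hg _ rfl]
    intro x hx
    obtain ⟨p, hp, rfl⟩ := List.mem_map.1 hx
    exact (hl p hp).2.1
  have e4 : (catP n l).2.2.testBit (d * n + i) = (l.getD d ((0, 0), (0, 0))).2.2.testBit i := by
    show (cat n (fr (fun (p : Pc) r => p.2.2 :: r) [] l)).testBit _ = _
    rw [fr_map (fun p : Pc => p.2.2), tb_cat _ hi, hg _ rfl]
    intro x hx
    obtain ⟨p, hp, rfl⟩ := List.mem_map.1 hx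
    exact (hl p hp).2.2
  constructor
  · unfold pv tv
    rw [e1, e2, e3, e4]
  · rintro ⟨h1, h2⟩
    constructor
    · unfold Can at h1 ⊢
      rw [e1, e2]
      exact h1
    · unfold Can at h2 ⊢
      rw [e3, e4]
      exact h2

lemma smP_catP {n : ℕ} {l : List Pc} (hl : ∀ x ∈ l, SmP n x) : SmP (n * l.length) (catP n l) := by
  refine ⟨⟨?_, ?_⟩, ⟨?_, ?_⟩⟩
  · show Sm _ (cat n (fr (fun (p : Pc) r => p.1.1 :: r) [] l))
    rw [fr_map (fun p : Pc => p.1.1)]
    have := sm_cat (n := n) (l := l.map (fun p : Pc => p.1.1)) (by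
      intro x hx
      obtain ⟨p, hp, rfl⟩ := List.mem_map.1 hx
      exact (hl p hp).1.1)
    rwa [List.length_map] at this
  · show Sm _ (cat n (fr (fun (p : Pc) r => p.1.2 :: r) [] l))
    rw [fr_map (fun p : Pc => p.1.2)]
    have := sm_cat (n := n) (l := l.map (fun p : Pc => p.1.2)) (by
      intro x hx
      obtain ⟨p, hp, rfl⟩ := List.mem_map.1 hx
      exact (hl p hp).1.2)
    rwa [List.length_map] at this
  · show Sm _ (cat n (fr (fun (p : Pc) r => p.2.1 :: r) [] l))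
    rw [fr_map (fun p : Pc => p.2.1)]
    have := sm_cat (n := n) (l := l.map (fun p : Pc => p.2.1)) (by
      intro x hx
      obtain ⟨p, hp, rfl⟩ := List.mem_map.1 hx
      exact (hl p hp).2.1)
    rwa [List.length_map] at this
  · show Sm _ (cat n (fr (fun (p : Pc) r => p.2.2 :: r) [] l))
    rw [fr_map (fun p : Pc => p.2.2)]
    have := sm_cat (n := n) (l := l.map (fun p : Pc => p.2.2)) (by
      intro x hx
      obtain ⟨p, hp, rfl⟩ := List.mem_map.1 hx
      exact (hl p hp).2.2)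
    rwa [List.length_map] at this

/-! ## the six and the eight points -/

lemma six_length (A B : Pc) : (six A B).length = 6 := rfl

lemma eight_length (o : ℕ) (A : Pc) : (eight o A).length = 8 := rfl

lemma smP_six {n : ℕ} {A B : Pc} (hA : SmP n A) (hB : SmP n B) : ∀ p ∈ six A B, SmP n p := by
  have hx := smT_subT hB.1 hA.1
  have hy := smT_subT hB.2 hA.2
  have h1 : ∀ b : Pc, SmP n b → SmP n (rel1 b (subT B.1 A.1) (subT B.2 A.2)) := fun b hb =>
    ⟨smT_subT hb.1 hy, smT_addT hb.2 hx⟩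
  have h2 : ∀ b : Pc, SmP n b → SmP n (rel2 b (subT B.1 A.1) (subT B.2 A.2)) := fun b hb =>
    ⟨smT_addT hb.1 hy, smT_subT hb.2 hx⟩
  have h3 : SmP n (addT A.1 (subT B.1 A.1), addT A.2 (subT B.2 A.2)) :=
    ⟨smT_addT hA.1 hx, smT_addT hA.2 hy⟩
  have h4 : SmP n (subT A.1 (subT B.1 A.1), subT A.2 (subT B.2 A.2)) :=
    ⟨smT_subT hA.1 hx, smT_subT hA.2 hy⟩
  intro p hp
  simp only [six, six0, List.mem_cons, List.not_mem_nil, or_false] at hp
  rcases hp with rfl | rfl | rfl | rfl | rfl | rfl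
  · exact h1 _ hA
  · exact h2 _ hA
  · exact h1 _ h3
  · exact h2 _ h3
  · exact h1 _ h4
  · exact h2 _ h4

lemma smT_c1 (n : ℕ) : SmT n (0, ones n) := ⟨sm_zero _, sm_ones _⟩
lemma smT_c2 (n : ℕ) : SmT n (ones n, 0) := ⟨sm_ones _, sm_zero _⟩

lemma smP_eight {n : ℕ} {A : Pc} (hA : SmP n A) : ∀ p ∈ eight (ones n) A, SmP n p := by
  have x1 := smT_addT hA.1 (smT_c1 n)
  have x2 := smT_addT hA.1 (smT_c2 n)
  have y1 := smT_addT hA.2 (smT_c1 n)
  have y2 := smT_addT hA.2 (smT_c2 n)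
  intro p hp
  simp only [eight, eight0, List.mem_cons, List.not_mem_nil, or_false] at hp
  rcases hp with rfl | rfl | rfl | rfl | rfl | rfl | rfl | rfl
  · exact ⟨hA.1, y1⟩
  · exact ⟨hA.1, y2⟩
  · exact ⟨x1, hA.2⟩
  · exact ⟨x1, y1⟩
  · exact ⟨x1, y2⟩
  · exact ⟨x2, hA.2⟩
  · exact ⟨x2, y1⟩
  · exact ⟨x2, y2⟩

/-- three points are not on a line -/
def NonCol (a b c : Pt) : Prop := ∀ s : Fin 4, ¬ (form s a = form s b ∧ form s a = form s c)

instance (a b c : Pt) : Decidable (NonCol a b c) := by unfold NonCol; infer_instance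

def r1 (b d : Pt) : Pt := (b.1 - d.2, b.2 + d.1)
def r2 (b d : Pt) : Pt := (b.1 + d.2, b.2 - d.1)

def sixP (a b c : Pt) : Prop :=
    c = r1 a (b - a) ∨ c = r2 a (b - a) ∨ c = r1 (a + (b - a)) (b - a) ∨
    c = r2 (a + (b - a)) (b - a) ∨ c = r1 (a - (b - a)) (b - a) ∨
    c = r2 (a - (b - a)) (b - a)

instance (a b c : Pt) : Decidable (sixP a b c) := by unfold sixP; infer_instance

lemma six_pt : ∀ a b c : Pt, a ≠ b → NonCol a b c → sixP a b c := by
  decide +kernel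

lemma eight_pt : ∀ a c : Pt, a ≠ c →
    c = (a.1, a.2 + 1) ∨ c = (a.1, a.2 + 2) ∨ c = (a.1 + 1, a.2) ∨ c = (a.1 + 1, a.2 + 1) ∨
    c = (a.1 + 1, a.2 + 2) ∨ c = (a.1 + 2, a.2) ∨ c = (a.1 + 2, a.2 + 1) ∨
    c = (a.1 + 2, a.2 + 2) := by
  decide +kernel

lemma pv_rel1 {b : Pc} {dx dy : Tr} {i : ℕ} (hb : CanP b i) (hx : Can dx i) (hy : Can dy i) :
    pv (rel1 b dx dy) i = r1 (pv b i) (tv dx i, tv dy i) := by
  simp only [pv, rel1, r1, tv_subT hb.1 hy, tv_addT hb.2 hx]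

lemma pv_rel2 {b : Pc} {dx dy : Tr} {i : ℕ} (hb : CanP b i) (hx : Can dx i) (hy : Can dy i) :
    pv (rel2 b dx dy) i = r2 (pv b i) (tv dx i, tv dy i) := by
  simp only [pv, rel2, r2, tv_addT hb.1 hy, tv_subT hb.2 hx]

lemma can_rel1 (b : Pc) (dx dy : Tr) (i : ℕ) : CanP (rel1 b dx dy) i :=
  ⟨can_subT _ _ _, can_addT _ _ _⟩
lemma can_rel2 (b : Pc) (dx dy : Tr) (i : ℕ) : CanP (rel2 b dx dy) i :=
  ⟨can_addT _ _ _, can_subT _ _ _⟩

lemma six_cover {A B : Pc} {i : ℕ} (hA : CanP A i) (hB : CanP B i) {c : Pt}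
    (hab : pv A i ≠ pv B i) (hc : NonCol (pv A i) (pv B i) c) :
    ∃ d < 6, pv ((six A B).getD d ((0, 0), (0, 0))) i = c ∧
      CanP ((six A B).getD d ((0, 0), (0, 0))) i := by
  have hx := can_subT B.1 A.1 i
  have hy := can_subT B.2 A.2 i
  have hd : (tv (subT B.1 A.1) i, tv (subT B.2 A.2) i) = pv B i - pv A i := by
    rw [tv_subT hB.1 hA.1, tv_subT hB.2 hA.2]
    rfl
  have ha : CanP (addT A.1 (subT B.1 A.1), addT A.2 (subT B.2 A.2)) i :=
    ⟨can_addT _ _ _, can_addT _ _ _⟩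
  have hs : CanP (subT A.1 (subT B.1 A.1), subT A.2 (subT B.2 A.2)) i :=
    ⟨can_subT _ _ _, can_subT _ _ _⟩
  have pa : pv (addT A.1 (subT B.1 A.1), addT A.2 (subT B.2 A.2)) i =
      pv A i + (pv B i - pv A i) := by
    rw [← hd]
    simp only [pv, tv_addT hA.1 hx, tv_addT hA.2 hy]
    rfl
  have ps : pv (subT A.1 (subT B.1 A.1), subT A.2 (subT B.2 A.2)) i =
      pv A i - (pv B i - pv A i) := by
    rw [← hd]
    simp only [pv, tv_subT hA.1 hx, tv_subT hA.2 hy]
    rfl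
  rcases six_pt _ _ c hab hc with h | h | h | h | h | h
  · exact ⟨0, by norm_num, by
      show pv (rel1 A (subT B.1 A.1) (subT B.2 A.2)) i = c
      rw [pv_rel1 hA hx hy, hd, h], can_rel1 _ _ _ _⟩
  · exact ⟨1, by norm_num, by
      show pv (rel2 A (subT B.1 A.1) (subT B.2 A.2)) i = c
      rw [pv_rel2 hA hx hy, hd, h], can_rel2 _ _ _ _⟩
  · exact ⟨2, by norm_num, by
      show pv (rel1 (addT A.1 (subT B.1 A.1), addT A.2 (subT B.2 A.2)) (subT B.1 A.1)
        (subT B.2 A.2)) i = c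
      rw [pv_rel1 ha hx hy, hd, h, pa], can_rel1 _ _ _ _⟩
  · exact ⟨3, by norm_num, by
      show pv (rel2 (addT A.1 (subT B.1 A.1), addT A.2 (subT B.2 A.2)) (subT B.1 A.1)
        (subT B.2 A.2)) i = c
      rw [pv_rel2 ha hx hy, hd, h, pa], can_rel2 _ _ _ _⟩
  · exact ⟨4, by norm_num, by
      show pv (rel1 (subT A.1 (subT B.1 A.1), subT A.2 (subT B.2 A.2)) (subT B.1 A.1)
        (subT B.2 A.2)) i = c
      rw [pv_rel1 hs hx hy, hd, h, ps], can_rel1 _ _ _ _⟩
  · exact ⟨5, by norm_num, by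
      show pv (rel2 (subT A.1 (subT B.1 A.1), subT A.2 (subT B.2 A.2)) (subT B.1 A.1)
        (subT B.2 A.2)) i = c
      rw [pv_rel2 hs hx hy, hd, h, ps], can_rel2 _ _ _ _⟩

lemma can_c1 (o i : ℕ) : Can (0, o) i := by
  rintro ⟨h, _⟩
  simp at h

lemma can_c2 (o i : ℕ) : Can (o, 0) i := by
  rintro ⟨_, h⟩
  simp at h

lemma tv_c1 {n i : ℕ} (hi : i < n) : tv (0, ones n) i = 1 := by
  simp [tv, tb_ones, hi]

lemma tv_c2 {n i : ℕ} (hi : i < n) : tv (ones n, 0) i = 2 := by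
  simp [tv, tb_ones, hi]

lemma eight_cover {A : Pc} {n i : ℕ} (hi : i < n) (hA : CanP A i) {c : Pt} (hac : pv A i ≠ c) :
    ∃ d < 8, pv ((eight (ones n) A).getD d ((0, 0), (0, 0))) i = c ∧
      CanP ((eight (ones n) A).getD d ((0, 0), (0, 0))) i := by
  have x1 : tv (addT A.1 (0, ones n)) i = tv A.1 i + 1 := by
    rw [tv_addT hA.1 (can_c1 _ _), tv_c1 hi]
  have x2 : tv (addT A.1 (ones n, 0)) i = tv A.1 i + 2 := by
    rw [tv_addT hA.1 (can_c2 _ _), tv_c2 hi]
  have y1 : tv (addT A.2 (0, ones n)) i = tv A.2 i + 1 := by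
    rw [tv_addT hA.2 (can_c1 _ _), tv_c1 hi]
  have y2 : tv (addT A.2 (ones n, 0)) i = tv A.2 i + 2 := by
    rw [tv_addT hA.2 (can_c2 _ _), tv_c2 hi]
  rcases eight_pt _ c hac with h | h | h | h | h | h | h | h
  · exact ⟨0, by norm_num, by
      show (tv A.1 i, tv (addT A.2 (0, ones n)) i) = c
      rw [y1, h]; rfl, ⟨hA.1, can_addT _ _ _⟩⟩
  · exact ⟨1, by norm_num, by
      show (tv A.1 i, tv (addT A.2 (ones n, 0)) i) = c
      rw [y2, h]; rfl, ⟨hA.1, can_addT _ _ _⟩⟩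
  · exact ⟨2, by norm_num, by
      show (tv (addT A.1 (0, ones n)) i, tv A.2 i) = c
      rw [x1, h]; rfl, ⟨can_addT _ _ _, hA.2⟩⟩
  · exact ⟨3, by norm_num, by
      show (tv (addT A.1 (0, ones n)) i, tv (addT A.2 (0, ones n)) i) = c
      rw [x1, y1, h]; rfl, ⟨can_addT _ _ _, can_addT _ _ _⟩⟩
  · exact ⟨4, by norm_num, by
      show (tv (addT A.1 (0, ones n)) i, tv (addT A.2 (ones n, 0)) i) = c
      rw [x1, y2, h]; rfl, ⟨can_addT _ _ _, can_addT _ _ _⟩⟩
  · exact ⟨5, by norm_num, by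
      show (tv (addT A.1 (ones n, 0)) i, tv A.2 i) = c
      rw [x2, h]; rfl, ⟨can_addT _ _ _, hA.2⟩⟩
  · exact ⟨6, by norm_num, by
      show (tv (addT A.1 (ones n, 0)) i, tv (addT A.2 (0, ones n)) i) = c
      rw [x2, y1, h]; rfl, ⟨can_addT _ _ _, can_addT _ _ _⟩⟩
  · exact ⟨7, by norm_num, by
      show (tv (addT A.1 (ones n, 0)) i, tv (addT A.2 (ones n, 0)) i) = c
      rw [x2, y2, h]; rfl, ⟨can_addT _ _ _, can_addT _ _ _⟩⟩

end StrongArb.H69
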