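import Pool.Agent.Lib.MP_39c2b7_co.H69.Star
import Pool.Agent.Lib.MP_39c2b7_co.H69.Trit

/-!
# Semantics of the relation procedure
-/

set_option linter.all false

namespace StrongArb.H69

open StrongArb SimpleGraph

set_option maxRecDepth 4000

/-- the older labels joined to the new label `e` in state `i` -/
noncomputable def nbL (tab : List ℕ) (i : ℕ) (e : ℕ × Tr) (t : List (ℕ × Tr)) : List ℕ :=
  open Classical in
  (t.filter (fun f => adj tab e.1 f.1 = true ∧ tv e.2 i = tv f.2 i)).map Prod.fst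

lemma mem_nbL {tab : List ℕ} {i : ℕ} {e : ℕ × Tr} {t : List (ℕ × Tr)} {w : ℕ} :
    w ∈ nbL tab i e t ↔ ∃ f ∈ t, f.1 = w ∧ adj tab e.1 f.1 = true ∧ tv e.2 i = tv f.2 i := by
  classical
  simp only [nbL, List.mem_map, List.mem_filter, decide_eq_true_eq]
  constructor
  · rintro ⟨f, ⟨h1, h2⟩, h3⟩
    exact ⟨f, h1, h3, h2⟩
  · rintro ⟨f, h1, h3, h2⟩
    exact ⟨f, ⟨h1, h2⟩, h3⟩

/-- the graph processed in state `i` -/
noncomputable def Gr (tab : List ℕ) (i : ℕ) : List (ℕ × Tr) → SimpleGraph ℕ
  | [] => ⊥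
  | e :: t => Gr tab i t ⊔ starG e.1 {w | w ∈ nbL tab i e t}

variable {tab : List ℕ} {i : ℕ}

lemma gr_mem {L : List (ℕ × Tr)} {a b : ℕ} (h : (Gr tab i L).Adj a b) :
    a ∈ L.map Prod.fst ∧ b ∈ L.map Prod.fst := by
  induction L with
  | nil => exact h.elim
  | cons e t ih =>
    have hn : ∀ w, w ∈ nbL tab i e t → w ∈ t.map Prod.fst := by
      intro w hw
      obtain ⟨f, hf, rfl, _⟩ := mem_nbL.1 hw
      exact List.mem_map.2 ⟨f, hf, rfl⟩
    rw [List.map_cons]
    rcases h with h | ⟨rfl, h, _⟩ | ⟨rfl, h, _⟩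
    · exact ⟨List.mem_cons_of_mem _ (ih h).1, List.mem_cons_of_mem _ (ih h).2⟩
    · exact ⟨List.mem_cons_self .., List.mem_cons_of_mem _ (hn _ h)⟩
    · exact ⟨List.mem_cons_of_mem _ (hn _ h), List.mem_cons_self ..⟩

/-- the row `row` describes the predicate `φ` on the labels of `L` -/
def AL (i : ℕ) (φ : ℕ → Prop) (L : List (ℕ × Tr)) (row : List ℕ) : Prop :=
  List.Forall₂ (fun f x => (x.testBit i = true ↔ φ f.1)) L row

lemma AL.congr {φ ψ : ℕ → Prop} {L : List (ℕ × Tr)} {row : List ℕ} (h : AL i φ L row)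
    (hφ : ∀ f ∈ L, (φ f.1 ↔ ψ f.1)) : AL i ψ L row := by
  unfold AL at h ⊢
  induction h with
  | nil => exact List.Forall₂.nil
  | cons h1 _ ih =>
    exact List.Forall₂.cons (h1.trans (hφ _ (List.mem_cons_self ..)))
      (ih (fun f hf => hφ f (List.mem_cons_of_mem _ hf)))

lemma al_orAnd {φ ψ : ℕ → Prop} {L : List (ℕ × Tr)} {m : ℕ} {acc row : List ℕ}
    (h1 : AL i φ L acc) (h2 : AL i ψ L row) :
    AL i (fun b => φ b ∨ (m.testBit i = true ∧ ψ b)) L (orAnd m acc row) := by
  unfold AL at h1 h2 ⊢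
  induction h1 generalizing row with
  | nil =>
    cases h2
    exact List.Forall₂.nil
  | cons ha _ ih =>
    rename_i f x L' acc' _
    cases h2 with
    | cons hb hr =>
      rename_i y row'
      have : orAnd m (x :: acc') (y :: row') = Nat.lor x (Nat.land m y) :: orAnd m acc' row' := rfl
      rw [this]
      refine List.Forall₂.cons ?_ (ih hr)
      rw [tb_or, tb_and, Bool.or_eq_true, Bool.and_eq_true, ha, hb]

/-- conflict between the neighbours -/
def Conf (M : ℕ → Prop) (R : ℕ → ℕ → Prop) : (ℕ → Prop) → List (ℕ × Tr) → Prop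
  | _, [] => False
  | φ, e :: t => (M e.1 ∧ φ e.1) ∨ Conf M R (fun b => φ b ∨ (M e.1 ∧ R e.1 b)) t

lemma gt_append {α : Type} (d : α) (pre : List α) (x : α) (suf : List α) :
    gt d (pre ++ x :: suf) pre.length = x := by
  induction pre with
  | nil => rfl
  | cons a pre ih => exact ih

lemma gt_forall₂ {α β : Type} {R : α → β → Prop} {d : β} {e : α} {suf : List α} :
    ∀ {pre : List α} {acc : List β}, List.Forall₂ R (pre ++ e :: suf) acc →
      R e (gt d acc pre.length) := by
  intro pre
  induction pre with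
  | nil =>
    intro acc h
    cases h with
    | cons h1 _ => exact h1
  | cons a pre ih =>
    intro acc h
    cases h with
    | cons _ h2 => exact ih h2

lemma forall₂_imp' {α β : Type} {R R' : α → β → Prop} {l : List α} {m : List β}
    (h : List.Forall₂ R l m) (hR : ∀ a ∈ l, ∀ b, R a b → R' a b) : List.Forall₂ R' l m := by
  induction h with
  | nil => exact List.Forall₂.nil
  | cons h1 _ ih =>
    exact List.Forall₂.cons (hR _ (List.mem_cons_self ..) _ h1)
      (ih (fun a ha => hR a (List.mem_cons_of_mem _ ha)))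

lemma accum_spec {M : ℕ → Prop} {R : ℕ → ℕ → Prop} {L : List (ℕ × Tr)}
    (suf : List (ℕ × Tr)) : ∀ (pre : List (ℕ × Tr)) (ms : List ℕ) (rows : List (List ℕ))
    (acc : List ℕ) (bad : ℕ) (φ : ℕ → Prop), L = pre ++ suf →
    List.Forall₂ (fun f (m : ℕ) => (m.testBit i = true ↔ M f.1)) suf ms →
    List.Forall₂ (fun (e : ℕ × Tr) row => AL i (R e.1) L row) suf rows →
    AL i φ L acc →
    AL i (fun b => φ b ∨ ∃ e ∈ suf, M e.1 ∧ R e.1 b) L
        (accum ms rows pre.length acc bad).1 ∧
      ((accum ms rows pre.length acc bad).2.testBit i = true ↔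
        (bad.testBit i = true ∨ Conf M R φ suf)) := by
  induction suf with
  | nil =>
    intro pre ms rows acc bad φ hL h1 h2 h3
    cases h1
    have : accum [] rows pre.length acc bad = (acc, bad) := rfl
    rw [this]
    refine ⟨h3.congr (fun f _ => by simp), by simp [Conf]⟩
  | cons e suf ih =>
    intro pre ms rows acc bad φ hL h1 h2 h3
    cases h1 with
    | cons hm h1 =>
    rename_i m ms'
    cases h2 with
    | cons hr h2 =>
    rename_i row rows'
    have hL' : L = (pre ++ [e]) ++ suf := by simp [hL]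
    have hlen : (pre ++ [e]).length = Nat.succ pre.length := by simp
    have hdef : accum (m :: ms') (row :: rows') pre.length acc bad =
      cond (Nat.beq m 0) (accum ms' rows' (Nat.succ pre.length) acc bad)
        (accum ms' rows' (Nat.succ pre.length) (orAnd m acc row)
          (Nat.lor bad (Nat.land m (gt 0 acc pre.length)))) := rfl
    rw [hdef]
    by_cases hm0 : m = 0
    · subst hm0
      have hb : Nat.beq 0 0 = true := rfl
      rw [hb]
      have hM : ¬ M e.1 := by
        rw [← hm]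
        simp
      have := ih (pre ++ [e]) ms' rows' acc bad φ hL' h1 h2 h3
      rw [hlen] at this
      refine ⟨this.1.congr (fun f _ => ?_), ?_⟩
      · constructor
        · rintro (h | ⟨e', he', h⟩)
          · exact Or.inl h
          · exact Or.inr ⟨e', List.mem_cons_of_mem _ he', h⟩
        · rintro (h | ⟨e', he', h⟩)
          · exact Or.inl h
          · rcases List.mem_cons.1 he' with rfl | he'
            · exact (hM h.1).elim
            · exact Or.inr ⟨e', he', h⟩
      · show (accum ms' rows' (Nat.succ pre.length) acc bad).2.testBit i = true ↔ _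
        rw [this.2]
        have hC : Conf M R φ (e :: suf) ↔ Conf M R φ suf := by
          have : (fun b => φ b ∨ (M e.1 ∧ R e.1 b)) = φ := by
            funext b
            simp [hM]
          show (M e.1 ∧ φ e.1) ∨ Conf M R (fun b => φ b ∨ (M e.1 ∧ R e.1 b)) suf ↔ _
          rw [this]
          simp [hM]
        rw [hC]
    · have hb : Nat.beq m 0 = false := by
        cases h : Nat.beq m 0
        · rfl
        · exact (hm0 (Nat.eq_of_beq_eq_true h)).elim
      rw [hb]
      have hacc := al_orAnd (m := m) h3 hr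
      have := ih (pre ++ [e]) ms' rows' (orAnd m acc row)
        (Nat.lor bad (Nat.land m (gt 0 acc pre.length))) _ hL' h1 h2 hacc
      rw [hlen] at this
      refine ⟨this.1.congr (fun f _ => ?_), ?_⟩
      · rw [hm]
        constructor
        · rintro ((h | h) | ⟨e', he', h⟩)
          · exact Or.inl h
          · exact Or.inr ⟨e, List.mem_cons_self .., h⟩
          · exact Or.inr ⟨e', List.mem_cons_of_mem _ he', h⟩
        · rintro (h | ⟨e', he', h⟩)
          · exact Or.inl (Or.inl h)
          · rcases List.mem_cons.1 he' with rfl | he'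
            · exact Or.inl (Or.inr h)
            · exact Or.inr ⟨e', he', h⟩
      · show (accum ms' rows' (Nat.succ pre.length) (orAnd m acc row)
          (Nat.lor bad (Nat.land m (gt 0 acc pre.length)))).2.testBit i = true ↔ _
        rw [this.2, tb_or, tb_and, Bool.or_eq_true, Bool.and_eq_true, hm]
        have hg : (gt 0 acc pre.length).testBit i = true ↔ φ e.1 := by
          rw [hL] at h3
          exact gt_forall₂ h3
        rw [hg]
        show _ ↔ bad.testBit i = true ∨ ((M e.1 ∧ φ e.1) ∨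
            Conf M R (fun b => φ b ∨ (M e.1 ∧ R e.1 b)) suf)
        rw [or_assoc]

lemma conf_mono {M : ℕ → Prop} {R : ℕ → ℕ → Prop} {L : List (ℕ × Tr)} :
    ∀ {φ ψ : ℕ → Prop}, (∀ b, φ b → ψ b) → Conf M R φ L → Conf M R ψ L := by
  induction L with
  | nil => intro φ ψ _ h; exact h
  | cons e t ih =>
    intro φ ψ hφ h
    rcases h with ⟨h1, h2⟩ | h
    · exact Or.inl ⟨h1, hφ _ h2⟩
    · refine Or.inr (ih (fun b hb => ?_) h)
      rcases hb with hb | hb
      · exact Or.inl (hφ b hb)
      · exact Or.inr hb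

lemma conf_of_mem {M : ℕ → Prop} {R : ℕ → ℕ → Prop} {L : List (ℕ × Tr)} :
    ∀ {φ : ℕ → Prop} {b : ℕ}, b ∈ L.map Prod.fst → M b → φ b → Conf M R φ L := by
  induction L with
  | nil => intro φ b hb; simp at hb
  | cons e t ih =>
    intro φ b hb hM hφ
    rw [List.map_cons, List.mem_cons] at hb
    rcases hb with rfl | hb
    · exact Or.inl ⟨hM, hφ⟩
    · exact Or.inr (ih hb hM (Or.inl hφ))

lemma conf_of_pair {M : ℕ → Prop} {R : ℕ → ℕ → Prop} (hR : ∀ a b, R a b → R b a)
    {L : List (ℕ × Tr)} : ∀ {φ : ℕ → Prop} {a b : ℕ}, a ∈ L.map Prod.fst → b ∈ L.map Prod.fst →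
    a ≠ b → M a → M b → R a b → Conf M R φ L := by
  induction L with
  | nil => intro φ a b ha; simp at ha
  | cons e t ih =>
    intro φ a b ha hb hab hMa hMb hr
    rw [List.map_cons, List.mem_cons] at ha hb
    rcases ha with rfl | ha
    · rcases hb with rfl | hb
      · exact (hab rfl).elim
      · exact Or.inr (conf_of_mem hb hMb (Or.inr ⟨hMa, hr⟩))
    · rcases hb with rfl | hb
      · exact Or.inr (conf_of_mem ha hMa (Or.inr ⟨hMb, hR _ _ hr⟩))
      · exact Or.inr (ih ha hb hab hMa hMb hr)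

lemma conf_imp {M : ℕ → Prop} {R : ℕ → ℕ → Prop} {L : List (ℕ × Tr)} :
    ∀ {φ : ℕ → Prop}, (L.map Prod.fst).Nodup → Conf M R φ L →
    (∃ b ∈ L.map Prod.fst, M b ∧ φ b) ∨ ∃ a ∈ L.map Prod.fst, ∃ b ∈ L.map Prod.fst,
      a ≠ b ∧ M a ∧ M b ∧ R a b := by
  induction L with
  | nil => intro φ _ h; exact h.elim
  | cons e t ih =>
    intro φ hn h
    rw [List.map_cons, List.nodup_cons] at hn
    rcases h with ⟨h1, h2⟩ | h
    · exact Or.inl ⟨e.1, by simp, h1, h2⟩
    · rcases ih hn.2 h with ⟨b, hb, hM, hφ | ⟨hMe, hR⟩⟩ | ⟨a, ha, b, hb, h⟩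
      · exact Or.inl ⟨b, List.mem_cons_of_mem _ hb, hM, hφ⟩
      · exact Or.inr ⟨e.1, by simp, b, List.mem_cons_of_mem _ hb,
          fun h => hn.1 (h ▸ hb), hMe, hM, hR⟩
      · exact Or.inr ⟨a, List.mem_cons_of_mem _ ha, b, List.mem_cons_of_mem _ hb, h⟩

lemma al_zipCons {ψ : ℕ → ℕ → Prop} {α β : ℕ → Prop} {e : ℕ × Tr} {L : List (ℕ × Tr)} {acc : List ℕ}
    (hacc : AL i β L acc) :
    ∀ {suf : List (ℕ × Tr)} {as : List ℕ} {rows : List (List ℕ)},
    List.Forall₂ (fun (f : ℕ × Tr) (x : ℕ) => (x.testBit i = true ↔ α f.1)) suf as →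
    List.Forall₂ (fun (f : ℕ × Tr) row => AL i (ψ f.1) L row) suf rows →
    List.Forall₂ (fun (f : ℕ × Tr) row => ∃ x row', row = x :: row' ∧
      (x.testBit i = true ↔ α f.1) ∧ AL i (fun b => ψ f.1 b ∨ (α f.1 ∧ β b)) L row')
      suf (zipCons acc as rows) := by
  intro suf
  induction suf with
  | nil =>
    intro as rows h1 h2
    cases h1
    exact List.Forall₂.nil
  | cons f suf ih =>
    intro as rows h1 h2
    cases h1 with
    | cons ha h1 =>
    rename_i a as'
    cases h2 with
    | cons hr h2 =>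
    rename_i row rows'
    have : zipCons acc (a :: as') (row :: rows') =
      (a :: orAnd a row acc) :: zipCons acc as' rows' := rfl
    rw [this]
    refine List.Forall₂.cons ⟨a, _, rfl, ha, ?_⟩ (ih h1 h2)
    have := al_orAnd (m := a) hr hacc
    refine this.congr (fun b _ => ?_)
    rw [ha]

/-- the output of the relation procedure is correct in state `i` -/
structure RelOK (tab : List ℕ) (i : ℕ) (L : List (ℕ × Tr)) (q : List (List ℕ) × ℕ) : Prop where
  rows : List.Forall₂ (fun (e : ℕ × Tr) row => AL i (fun b => (Gr tab i L).Reachable e.1 b) L row)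
    L q.1
  bad : q.2.testBit i = true ↔ ¬ (Gr tab i L).IsAcyclic

lemma masks_spec {o : ℕ} (ho : o.testBit i = true) (v : ℕ) (c : Tr) (hc : Can c i)
    (t : List (ℕ × Tr)) (ht : ∀ f ∈ t, Can f.2 i) :
    List.Forall₂ (fun (f : ℕ × Tr) (m : ℕ) => (m.testBit i = true ↔
      (adj tab v f.1 = true ∧ tv c i = tv f.2 i))) t (masks tab o v c t) := by
  induction t with
  | nil => exact List.Forall₂.nil
  | cons f t ih =>
    have : masks tab o v c (f :: t) = cond (adj tab v f.1) (eqm o c f.2) 0 :: masks tab o v c t :=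
      rfl
    rw [this]
    refine List.Forall₂.cons ?_ (ih (fun g hg => ht g (List.mem_cons_of_mem _ hg)))
    cases h : adj tab v f.1
    · simp
    · simp only [cond_true, true_and]
      exact eqm_iff ho hc (ht f (List.mem_cons_self ..))

lemma relP_nil (o : ℕ) : relP tab o [] = ([], 0) := rfl

lemma relP_cons (o : ℕ) (e : ℕ × Tr) (t : List (ℕ × Tr)) :
    relP tab o (e :: t) = relStep o (masks tab o e.1 e.2 t) (relP tab o t) := rfl

lemma zeros_spec (L : List (ℕ × Tr)) : ∀ rows : List (List ℕ), L.length = rows.length →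
    AL i (fun _ => False) L (fr (fun _ r => 0 :: r) [] rows) := by
  intro rows h
  rw [fr_map (fun _ : List ℕ => 0)]
  unfold AL
  rw [List.forall₂_map_right_iff]
  induction L generalizing rows with
  | nil =>
    cases rows
    · exact List.Forall₂.nil
    · simp at h
  | cons e L ih =>
    cases rows with
    | nil => simp at h
    | cons r rows =>
      refine List.Forall₂.cons (by simp) (ih rows (by simpa using h))

theorem relP_ok {o : ℕ} (ho : o.testBit i = true) (L : List (ℕ × Tr))
    (hc : ∀ f ∈ L, Can f.2 i) (hn : (L.map Prod.fst).Nodup) :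
    RelOK tab i L (relP tab o L) := by
  induction L with
  | nil =>
    rw [relP_nil]
    refine ⟨List.Forall₂.nil, ?_⟩
    simp [Gr]
  | cons e t ih =>
    have ht : ∀ f ∈ t, Can f.2 i := fun f hf => hc f (List.mem_cons_of_mem _ hf)
    rw [List.map_cons, List.nodup_cons] at hn
    obtain ⟨hrows, hbad⟩ := ih ht hn.2
    rw [relP_cons]
    set q := relP tab o t with hq
    set G := Gr tab i t with hG
    have hv : ∀ x, ¬ G.Adj e.1 x := fun x hx => hn.1 (gr_mem hx).1
    set S : Set ℕ := {w | w ∈ nbL tab i e t} with hS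
    have heS : e.1 ∉ S := by
      intro h
      obtain ⟨f, hf, h1, _⟩ := mem_nbL.1 h
      exact hn.1 (List.mem_map.2 ⟨f, hf, h1⟩)
    have hlab : ∀ f ∈ t, f.1 ≠ e.1 := fun f hf h => hn.1 (List.mem_map.2 ⟨f, hf, h⟩)
    have hSt : ∀ w ∈ S, w ∈ t.map Prod.fst := by
      intro w hw
      obtain ⟨f, hf, h1, _⟩ := mem_nbL.1 hw
      exact List.mem_map.2 ⟨f, hf, h1⟩
    -- masks describe membership in `S`
    have hM : List.Forall₂ (fun (f : ℕ × Tr) (m : ℕ) => (m.testBit i = true ↔ f.1 ∈ S)) t
        (masks tab o e.1 e.2 t) := by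
      have h1 := masks_spec (tab := tab) ho e.1 e.2 (hc e (List.mem_cons_self ..)) t ht
      have h2 : ∀ f ∈ t, (f.1 ∈ S ↔ (adj tab e.1 f.1 = true ∧ tv e.2 i = tv f.2 i)) := by
        intro f hf
        show f.1 ∈ nbL tab i e t ↔ _
        rw [mem_nbL]
        constructor
        · rintro ⟨g, hg, hgf, h3⟩
          have : g = f := List.inj_on_of_nodup_map hn.2 hg hf hgf
          rw [← this]
          exact h3
        · intro h3
          exact ⟨f, hf, rfl, h3⟩
      exact forall₂_imp' h1 (fun f hf m h => h.trans (h2 f hf).symm)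
    have hz : AL i (fun _ => False) t (fr (fun _ r => 0 :: r) [] q.1) :=
      zeros_spec t q.1 hrows.length_eq
    have hA := accum_spec (L := t) (M := fun a => a ∈ S) (R := fun a b => G.Reachable a b) t []
      (masks tab o e.1 e.2 t) q.1 (fr (fun _ r => 0 :: r) [] q.1) q.2 (fun _ => False) rfl hM
      hrows hz
    have hrel : relStep o (masks tab o e.1 e.2 t) q =
      ((o :: (accum (masks tab o e.1 e.2 t) q.1 0 (fr (fun _ r => 0 :: r) [] q.1) q.2).1) ::
        zipCons (accum (masks tab o e.1 e.2 t) q.1 0 (fr (fun _ r => 0 :: r) [] q.1) q.2).1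
          (accum (masks tab o e.1 e.2 t) q.1 0 (fr (fun _ r => 0 :: r) [] q.1) q.2).1 q.1,
        (accum (masks tab o e.1 e.2 t) q.1 0 (fr (fun _ r => 0 :: r) [] q.1) q.2).2) := rfl
    rw [hrel]
    obtain ⟨hA1, hA2⟩ := hA
    change AL i _ t (accum (masks tab o e.1 e.2 t) q.1 0 (fr (fun _ r => 0 :: r) [] q.1) q.2).1
      at hA1
    change ((accum (masks tab o e.1 e.2 t) q.1 0 (fr (fun _ r => 0 :: r) [] q.1) q.2).2.testBit i
      = true ↔ _) at hA2
    generalize (accum (masks tab o e.1 e.2 t) q.1 0 (fr (fun _ r => 0 :: r) [] q.1) q.2) = a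
      at hA1 hA2 ⊢
    have hα : ∀ f ∈ t, ((False ∨ ∃ e' ∈ t, e'.1 ∈ S ∧ G.Reachable e'.1 f.1) ↔
        (Gr tab i (e :: t)).Reachable e.1 f.1) := by
      intro f hf
      show _ ↔ (G ⊔ starG e.1 S).Reachable e.1 f.1
      rw [reach_center_iff hv heS (hlab f hf), false_or]
      constructor
      · rintro ⟨e', _, h1, h2⟩
        exact ⟨e'.1, h1, h2⟩
      · rintro ⟨w, h1, h2⟩
        obtain ⟨e', he', rfl⟩ := List.mem_map.1 (hSt w h1)
        exact ⟨e', he', h1, h2⟩
    have hA1' : AL i (fun b => (Gr tab i (e :: t)).Reachable e.1 b) t a.1 := hA1.congr hα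
    refine ⟨List.Forall₂.cons (List.Forall₂.cons ?_ hA1') ?_, ?_⟩
    · exact ⟨fun _ => Reachable.refl _, fun _ => ho⟩
    · have h3 := al_zipCons (e := e) (ψ := fun a b => G.Reachable a b) hA1' hA1' hrows
      refine forall₂_imp' h3 ?_
      rintro f hf row ⟨x, row', rfl, hx, hrow'⟩
      refine List.Forall₂.cons (hx.trans ⟨fun h => h.symm, fun h => h.symm⟩) ?_
      refine hrow'.congr (fun g hg => ?_)
      show (G.Reachable f.1 g.1 ∨ ((Gr tab i (e :: t)).Reachable e.1 f.1 ∧
        (Gr tab i (e :: t)).Reachable e.1 g.1)) ↔ (G ⊔ starG e.1 S).Reachable f.1 g.1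
      rw [reach_star_iff hv heS (hlab f hf) (hlab g hg)]
      rw [show (Gr tab i (e :: t)).Reachable e.1 f.1 ↔ ∃ a ∈ S, G.Reachable a f.1 from
        reach_center_iff hv heS (hlab f hf),
        show (Gr tab i (e :: t)).Reachable e.1 g.1 ↔ ∃ a ∈ S, G.Reachable a g.1 from
        reach_center_iff hv heS (hlab g hg)]
    · show a.2.testBit i = true ↔ ¬ (G ⊔ starG e.1 S).IsAcyclic
      rw [hA2, hbad]
      constructor
      · rintro (h | h)
        · exact fun h' => h (h'.anti le_sup_left)
        · rcases conf_imp hn.2 h with ⟨b, _, _, h⟩ | ⟨x, _, y, _, hxy, hx, hy, hr⟩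
          · exact h.elim
          · exact fun h' => acyclic_star_imp hv heS h' hx hy hxy hr
      · intro h
        by_contra h'
        rw [not_or, not_not] at h'
        apply h
        refine acyclic_star_of hv h'.1 (nbL tab i e t) heS ?_
        intro x hx y hy hxy hr
        exact h'.2 (conf_of_pair (fun _ _ h => h.symm) (hSt x hx) (hSt y hy) hxy hx hy hr)

end StrongArb.H69
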