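import Pool.Agent.Lib.MP_39c2b7_co.H69.Rel

/-!
# Semantics of the final tests
-/

set_option linter.all false

namespace StrongArb.H69

open StrongArb SimpleGraph

variable {i : ℕ}

/-! ## Booleans -/

lemma beq_iff {a b : ℕ} : Nat.beq a b = true ↔ a = b :=
  ⟨Nat.eq_of_beq_eq_true, fun h => by rw [h]; exact Nat.beq_refl b⟩

lemma beq_ff {a b : ℕ} (h : a ≠ b) : Nat.beq a b = false := by
  cases h1 : Nat.beq a b
  · rfl
  · exact (h (beq_iff.1 h1)).elim

lemma mem_iff {l : List ℕ} {a : ℕ} : mem l a = true ↔ a ∈ l := by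
  induction l with
  | nil => exact ⟨fun h => Bool.noConfusion h, fun h => by simp at h⟩
  | cons x l ih =>
    have : mem (x :: l) a = cond (Nat.beq x a) true (mem l a) := rfl
    rw [this, List.mem_cons]
    cases h : Nat.beq x a
    · rw [cond_false, ih]
      constructor
      · exact Or.inr
      · rintro (rfl | h')
        · rw [Nat.beq_refl] at h
          exact Bool.noConfusion h
        · exact h'
    · rw [cond_true]
      exact ⟨fun _ => Or.inl (beq_iff.1 h).symm, fun _ => rfl⟩

lemma all_iff {α : Type} {p : α → Bool} {l : List α} :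
    all p l = true ↔ ∀ x ∈ l, p x = true := by
  induction l with
  | nil => exact ⟨fun _ x hx => by simp at hx, fun _ => rfl⟩
  | cons x l ih =>
    have : all p (x :: l) = cond (p x) (all p l) false := rfl
    rw [this]
    cases h : p x
    · rw [cond_false]
      constructor
      · exact fun h => Bool.noConfusion h
      · intro h'
        rw [h' x (List.mem_cons_self ..)] at h
        exact h.symm
    · rw [cond_true, ih]
      constructor
      · intro h' y hy
        rcases List.mem_cons.1 hy with rfl | hy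
        · exact h
        · exact h' y hy
      · exact fun h' y hy => h' y (List.mem_cons_of_mem _ hy)

lemma nodup_iff {l : List ℕ} : nodup l = true ↔ l.Nodup := by
  induction l with
  | nil => exact ⟨fun _ => List.nodup_nil, fun _ => rfl⟩
  | cons x l ih =>
    have : nodup (x :: l) = and (not (mem l x)) (nodup l) := rfl
    rw [this, List.nodup_cons, Bool.and_eq_true, ih, Bool.not_eq_true', ← Bool.not_eq_true,
      mem_iff]

/-! ## looking up -/

lemma get1_spec {φ : ℕ → Prop} {L : List (ℕ × Tr)} (y : ℕ) : ∀ {row : List ℕ},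
    AL i φ L row → ((get1 (L.map Prod.fst) y row).testBit i = true ↔
      (y ∈ L.map Prod.fst ∧ φ y)) := by
  induction L with
  | nil =>
    intro row h
    have : get1 (List.map Prod.fst ([] : List (ℕ × Tr))) y row = 0 := rfl
    rw [this]
    simp
  | cons e t ih =>
    intro row h
    cases h with
    | cons h1 h2 =>
    rename_i x row'
    have : get1 (List.map Prod.fst (e :: t)) y (x :: row') =
      cond (Nat.beq e.1 y) x (get1 (t.map Prod.fst) y row') := rfl
    rw [this, List.map_cons, List.mem_cons]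
    cases h : Nat.beq e.1 y
    · have hne : y ≠ e.1 := by
        rintro rfl
        rw [Nat.beq_refl] at h
        exact Bool.noConfusion h
      rw [cond_false, ih h2]
      simp [hne]
    · have he := beq_iff.1 h
      subst he
      rw [cond_true, h1]
      simp

lemma get1_nil (ls : List ℕ) (y : ℕ) : get1 ls y [] = 0 := by
  cases ls <;> rfl

lemma getR_spec {ψ : ℕ → ℕ → Prop} {L : List (ℕ × Tr)} (x : ℕ) :
    ∀ {suf : List (ℕ × Tr)} {rows : List (List ℕ)},
    List.Forall₂ (fun (e : ℕ × Tr) row => AL i (ψ e.1) L row) suf rows →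
    (x ∈ suf.map Prod.fst → AL i (ψ x) L (getR (suf.map Prod.fst) x rows)) ∧
      (x ∉ suf.map Prod.fst → getR (suf.map Prod.fst) x rows = []) := by
  intro suf
  induction suf with
  | nil =>
    intro rows h
    refine ⟨fun h => by simp at h, fun _ => ?_⟩
    rfl
  | cons e suf ih =>
    intro rows h
    cases h with
    | cons h1 h2 =>
    rename_i row rows'
    have : getR (List.map Prod.fst (e :: suf)) x (row :: rows') =
      cond (Nat.beq e.1 x) row (getR (suf.map Prod.fst) x rows') := rfl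
    rw [this, List.map_cons, List.mem_cons]
    cases h : Nat.beq e.1 x
    · have hne : x ≠ e.1 := by
        rintro rfl
        rw [Nat.beq_refl] at h
        exact Bool.noConfusion h
      rw [cond_false]
      refine ⟨fun h => (ih h2).1 (h.resolve_left hne), fun h => (ih h2).2 (fun h' => h (Or.inr h'))⟩
    · have he := beq_iff.1 h
      subst he
      rw [cond_true]
      exact ⟨fun _ => h1, fun h => (h (Or.inl rfl)).elim⟩

/-- connection bit -/
lemma conn_spec {tab : List ℕ} {L : List (ℕ × Tr)} {q : List (List ℕ) × ℕ}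
    (h : RelOK tab i L q) (x y : ℕ) :
    (get1 (L.map Prod.fst) y (getR (L.map Prod.fst) x q.1)).testBit i = true ↔
      (x ∈ L.map Prod.fst ∧ y ∈ L.map Prod.fst ∧ (Gr tab i L).Reachable x y) := by
  have h1 := getR_spec (ψ := fun a b => (Gr tab i L).Reachable a b) x h.rows
  by_cases hx : x ∈ L.map Prod.fst
  · rw [get1_spec y (h1.1 hx)]
    simp [hx]
  · rw [h1.2 hx, get1_nil]
    simp [hx]

/-! ## violations -/

lemma viol1_spec {o : ℕ} (ho : o.testBit i = true) {lk lq rowK rowQ : List ℕ}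
    {R : List (ℕ × ℕ)} {f : ℕ} (h : (viol1 o lk lq rowK rowQ R f).testBit i = false) :
    f.testBit i = false ∧ ∀ e ∈ R, (get1 lk e.1 rowK).testBit i = true →
      (get1 lq e.2 rowQ).testBit i = true := by
  induction R with
  | nil => exact ⟨h, fun e he => by simp at he⟩
  | cons e R ih =>
    have h0 : viol1 o lk lq rowK rowQ (e :: R) f = Nat.lor (viol1 o lk lq rowK rowQ R f)
      (Nat.land (get1 lk e.1 rowK) (Nat.xor o (get1 lq e.2 rowQ))) := rfl
    rw [h0, tb_or, tb_and, tb_xor, ho, Bool.or_eq_false_iff] at h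
    obtain ⟨h1, h2⟩ := ih h.1
    refine ⟨h1, ?_⟩
    intro e' he'
    rcases List.mem_cons.1 he' with rfl | he'
    · intro h3
      rw [h3, Bool.true_and, Bool.true_xor] at h
      simpa using h.2
    · exact h2 e' he'

lemma viol_spec {o : ℕ} (ho : o.testBit i = true) {lk lq : List ℕ} {K Q : List (List ℕ)}
    {R : List (ℕ × ℕ)} {f : ℕ} (h : (viol o lk lq K Q R f).testBit i = false) :
    f.testBit i = false ∧ R.Pairwise (fun e e' =>
      (get1 lk e'.1 (getR lk e.1 K)).testBit i = true →
        (get1 lq e'.2 (getR lq e.2 Q)).testBit i = true) := by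
  induction R with
  | nil => exact ⟨h, List.Pairwise.nil⟩
  | cons e R ih =>
    have h0 : viol o lk lq K Q (e :: R) f = viol1 o lk lq (getR lk e.1 K) (getR lq e.2 Q) R
      (viol o lk lq K Q R f) := rfl
    rw [h0] at h
    obtain ⟨h1, h2⟩ := viol1_spec ho h
    obtain ⟨h3, h4⟩ := ih h1
    exact ⟨h3, List.Pairwise.cons h2 h4⟩

/-! ## improper states -/

lemma improper_aux {o : ℕ} (ho : o.testBit i = true) {tab : List ℕ} {e : ℕ × Pc}
    (he : CanP e.2 i) (r : ℕ) {t : Cols} (ht : ∀ f ∈ t, CanP f.2 i) :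
    (fr (fun (f : ℕ × Pc) r => cond (adj tab e.1 f.1)
      (Nat.lor r (Nat.land (eqm o e.2.1 f.2.1) (eqm o e.2.2 f.2.2))) r) r t).testBit i = false ↔
      (r.testBit i = false ∧ ∀ f ∈ t, adj tab e.1 f.1 = true → pv e.2 i ≠ pv f.2 i) := by
  induction t with
  | nil =>
    constructor
    · exact fun h => ⟨h, fun f hf => by simp at hf⟩
    · exact fun h => h.1
  | cons f t ih =>
    have ih' := ih (fun g hg => ht g (List.mem_cons_of_mem _ hg))
    have hf := ht f (List.mem_cons_self ..)
    have h0 : fr (fun (f : ℕ × Pc) r => cond (adj tab e.1 f.1)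
      (Nat.lor r (Nat.land (eqm o e.2.1 f.2.1) (eqm o e.2.2 f.2.2))) r) r (f :: t) =
      cond (adj tab e.1 f.1) (Nat.lor (fr (fun (f : ℕ × Pc) r => cond (adj tab e.1 f.1)
      (Nat.lor r (Nat.land (eqm o e.2.1 f.2.1) (eqm o e.2.2 f.2.2))) r) r t)
        (Nat.land (eqm o e.2.1 f.2.1) (eqm o e.2.2 f.2.2)))
        (fr (fun (f : ℕ × Pc) r => cond (adj tab e.1 f.1)
      (Nat.lor r (Nat.land (eqm o e.2.1 f.2.1) (eqm o e.2.2 f.2.2))) r) r t) := rfl
    rw [h0]
    cases h : adj tab e.1 f.1
    · rw [cond_false, ih']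
      constructor
      · rintro ⟨h1, h2⟩
        refine ⟨h1, fun g hg hadj => ?_⟩
        rcases List.mem_cons.1 hg with rfl | hg
        · rw [h] at hadj
          exact Bool.noConfusion hadj
        · exact h2 g hg hadj
      · exact fun ⟨h1, h2⟩ => ⟨h1, fun g hg => h2 g (List.mem_cons_of_mem _ hg)⟩
    · rw [cond_true, tb_or, Bool.or_eq_false_iff, ih', tb_and]
      have h3 : ((eqm o e.2.1 f.2.1).testBit i && (eqm o e.2.2 f.2.2).testBit i) = false ↔
          pv e.2 i ≠ pv f.2 i := by
        rw [← Bool.not_eq_true, Bool.and_eq_true, eqm_iff ho he.1 hf.1, eqm_iff ho he.2 hf.2]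
        unfold pv
        rw [Ne, Prod.mk.injEq]
      rw [h3]
      constructor
      · rintro ⟨⟨h1, h2⟩, h4⟩
        refine ⟨h1, fun g hg hadj => ?_⟩
        rcases List.mem_cons.1 hg with rfl | hg
        · exact h4
        · exact h2 g hg hadj
      · rintro ⟨h1, h2⟩
        exact ⟨⟨h1, fun g hg => h2 g (List.mem_cons_of_mem _ hg)⟩, h2 f (List.mem_cons_self ..) h⟩

lemma improper_spec {o : ℕ} (ho : o.testBit i = true) {tab : List ℕ} {L : Cols}
    (hL : ∀ f ∈ L, CanP f.2 i) :
    (improper tab o L).testBit i = false ↔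
      L.Pairwise (fun e f => adj tab e.1 f.1 = true → pv e.2 i ≠ pv f.2 i) := by
  induction L with
  | nil =>
    have : improper tab o [] = 0 := rfl
    rw [this]
    simp
  | cons e t ih =>
    have h0 : improper tab o (e :: t) = fr (fun f r => cond (adj tab e.1 f.1)
      (Nat.lor r (Nat.land (eqm o e.2.1 f.2.1) (eqm o e.2.2 f.2.2))) r) (improper tab o t) t := rfl
    have ht : ∀ f ∈ t, CanP f.2 i := fun f hf => hL f (List.mem_cons_of_mem _ hf)
    rw [h0, improper_aux ho (hL e (List.mem_cons_self ..)) _ ht, ih ht, List.pairwise_cons,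
      and_comm]

/-! ## one form -/

lemma formL_eq (s : ℕ) (L : Cols) : formL s L = L.map (fun e => (e.1, formT s e.2)) :=
  fr_map (fun e : ℕ × Pc => (e.1, formT s e.2)) L

lemma labels_eq {α : Type} (L : List (ℕ × α)) : labels L = L.map Prod.fst :=
  fr_map (fun e : ℕ × α => e.1) L

lemma formL_fst (s : ℕ) (L : Cols) : (formL s L).map Prod.fst = L.map Prod.fst := by
  rw [formL_eq, List.map_map]
  rfl

lemma formL_can {s : ℕ} {L : Cols} (h : ∀ f ∈ L, CanP f.2 i) : ∀ f ∈ formL s L, Can f.2 i := by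
  intro f hf
  rw [formL_eq] at hf
  obtain ⟨e, he, rfl⟩ := List.mem_map.1 hf
  exact can_formT (h e he)

/-- common hypotheses on the two tables of columns in state `i` -/
structure St (o i : ℕ) (K Q : Cols) (R : List (ℕ × ℕ)) : Prop where
  ho : o.testBit i = true
  canK : ∀ f ∈ K, CanP f.2 i
  canQ : ∀ f ∈ Q, CanP f.2 i
  nK : (K.map Prod.fst).Nodup
  nQ : (Q.map Prod.fst).Nodup
  ringK : ∀ e ∈ R, e.1 ∈ K.map Prod.fst

lemma checkForm_fst {tabQ tabK : List ℕ} {o : ℕ} {K Q : Cols} {R : List (ℕ × ℕ)} {s : ℕ}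
    {f : ℕ × ℕ} (hS : St o i K Q R)
    (h : (checkForm tabQ tabK o (labels K) (labels Q) K Q R s f).1.testBit i = false) :
    f.1.testBit i = false ∧ (Gr tabK i (formL s K)).IsAcyclic ∧
      ∀ e ∈ R, ∀ e' ∈ R, (Gr tabK i (formL s K)).Reachable e.1 e'.1 →
        (Gr tabQ i (formL s Q)).Reachable e.2 e'.2 := by
  have hK := relP_ok (tab := tabK) hS.ho (formL s K) (formL_can hS.canK)
    (by rw [formL_fst]; exact hS.nK)
  have hQ := relP_ok (tab := tabQ) hS.ho (formL s Q) (formL_can hS.canQ)
    (by rw [formL_fst]; exact hS.nQ)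
  have h0 : checkForm tabQ tabK o (labels K) (labels Q) K Q R s f =
    (viol o (labels K) (labels Q) (relP tabK o (formL s K)).1 (relP tabQ o (formL s Q)).1 R
      (Nat.lor f.1 (relP tabK o (formL s K)).2), Nat.lor f.2 (relP tabQ o (formL s Q)).2) := rfl
  rw [h0] at h
  obtain ⟨h1, h2⟩ := viol_spec hS.ho h
  rw [tb_or, Bool.or_eq_false_iff] at h1
  refine ⟨h1.1, ?_, ?_⟩
  · by_contra h3
    rw [hK.bad.2 h3] at h1
    exact Bool.noConfusion h1.2
  · haveI : Std.Symm (fun (e e' : ℕ × ℕ) =>
        (Gr tabK i (formL s K)).Reachable e.1 e'.1 → (Gr tabQ i (formL s Q)).Reachable e.2 e'.2) :=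
      ⟨fun e e' h3 h4 => (h3 h4.symm).symm⟩
    refine List.Pairwise.forall_of_forall (R := fun (e e' : ℕ × ℕ) =>
      (Gr tabK i (formL s K)).Reachable e.1 e'.1 → (Gr tabQ i (formL s Q)).Reachable e.2 e'.2)
      ?_ ?_
    · intro e _ _
      exact Reachable.refl _
    · refine List.Pairwise.imp_of_mem ?_ h2
      intro e e' he he' h3 h4
      rw [labels_eq, labels_eq, ← formL_fst s K, ← formL_fst s Q, conn_spec hK, conn_spec hQ,
        formL_fst, formL_fst] at h3
      exact (h3 ⟨hS.ringK e he, hS.ringK e' he', h4⟩).2.2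

lemma checkForm_snd {tabQ tabK : List ℕ} {o : ℕ} {K Q : Cols} {R : List (ℕ × ℕ)} {s : ℕ}
    {f : ℕ × ℕ} {lk lq : List ℕ} (hS : St o i K Q R) (hf : f.2.testBit i = false)
    (hQ : (Gr tabQ i (formL s Q)).IsAcyclic) :
    (checkForm tabQ tabK o lk lq K Q R s f).2.testBit i = false := by
  have hQ' := relP_ok (tab := tabQ) hS.ho (formL s Q) (formL_can hS.canQ)
    (by rw [formL_fst]; exact hS.nQ)
  have h0 : (checkForm tabQ tabK o lk lq K Q R s f).2 =
    Nat.lor f.2 (relP tabQ o (formL s Q)).2 := rfl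
  rw [h0, tb_or, Bool.or_eq_false_iff]
  refine ⟨hf, ?_⟩
  cases h : (relP tabQ o (formL s Q)).2.testBit i
  · rfl
  · exact (hQ'.bad.1 h hQ).elim

lemma final_spec {o : ℕ} {f : ℕ × ℕ} (h : final o f = true) (ho : o.testBit i = true)
    (hf : f.2.testBit i = false) : f.1.testBit i = false := by
  have h1 : Nat.land f.1 (Nat.xor o f.2) = 0 := beq_iff.1 h
  have h2 : (Nat.land f.1 (Nat.xor o f.2)).testBit i = false := by
    rw [h1]
    exact Nat.zero_testBit i
  rw [tb_and, tb_xor, ho, hf] at h2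
  simpa using h2

/-- the result of the core test in one state -/
theorem core_spec {C : DCert} {o : ℕ} {K Q : Cols} {R : List (ℕ × ℕ)} (hS : St o i K Q R)
    (h : domCore C o (labels K) (labels Q) K Q R = true)
    (hprop : Q.Pairwise (fun e f => adj C.tabQ e.1 f.1 = true → pv e.2 i ≠ pv f.2 i))
    (hfor : ∀ s : Fin 4, (Gr C.tabQ i (formL s Q)).IsAcyclic) :
    K.Pairwise (fun e f => adj C.tabK e.1 f.1 = true → pv e.2 i ≠ pv f.2 i) ∧
    (∀ s : Fin 4, (Gr C.tabK i (formL s K)).IsAcyclic) ∧
    ∀ s : Fin 4, ∀ e ∈ R, ∀ e' ∈ R, (Gr C.tabK i (formL s K)).Reachable e.1 e'.1 →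
        (Gr C.tabQ i (formL s Q)).Reachable e.2 e'.2 := by
  have h3 := checkForm_snd (tabQ := C.tabQ) (tabK := C.tabK) (lk := labels K) (lq := labels Q)
    (s := 3) (f := (improper C.tabK o K, improper C.tabQ o Q)) hS
    ((improper_spec hS.ho hS.canQ).2 hprop) (hfor 3)
  have h2 := checkForm_snd (tabQ := C.tabQ) (tabK := C.tabK) (lk := labels K) (lq := labels Q)
    (s := 2) hS h3 (hfor 2)
  have h1 := checkForm_snd (tabQ := C.tabQ) (tabK := C.tabK) (lk := labels K) (lq := labels Q)
    (s := 1) hS h2 (hfor 1)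
  have h0 := checkForm_snd (tabQ := C.tabQ) (tabK := C.tabK) (lk := labels K) (lq := labels Q)
    (s := 0) hS h1 (hfor 0)
  have g0 := checkForm_fst hS (final_spec h hS.ho h0)
  have g1 := checkForm_fst hS g0.1
  have g2 := checkForm_fst hS g1.1
  have g3 := checkForm_fst hS g2.1
  refine ⟨(improper_spec hS.ho hS.canK).1 g3.1, ?_, ?_⟩
  · intro s
    fin_cases s
    · exact g0.2.1
    · exact g1.2.1
    · exact g2.2.1
    · exact g3.2.1
  · intro s
    fin_cases s
    · exact g0.2.2
    · exact g1.2.2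
    · exact g2.2.2
    · exact g3.2.2

end StrongArb.H69
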