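import Pool.Agent.Lib.MP_39c2b7_co.H69.Enum

/-!
# Soundness of the domination checker
-/

set_option linter.all false

namespace StrongArb.H69

open StrongArb SimpleGraph

/-! ## graphs -/

lemma adj_gr {tab : List ℕ} {i : ℕ} {L : List (ℕ × Tr)} {e f : ℕ × Tr} (he : e ∈ L) (hf : f ∈ L)
    (hne : e.1 ≠ f.1) (h1 : adj tab e.1 f.1 = true) (h2 : adj tab f.1 e.1 = true)
    (h3 : tv e.2 i = tv f.2 i) : (Gr tab i L).Adj e.1 f.1 := by
  induction L with
  | nil => simp at he
  | cons g t ih =>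
    show (Gr tab i t ⊔ starG g.1 {w | w ∈ nbL tab i g t}).Adj e.1 f.1
    rw [SimpleGraph.sup_adj, starG_adj]
    rcases List.mem_cons.1 he with rfl | he'
    · rcases List.mem_cons.1 hf with rfl | hf'
      · exact (hne rfl).elim
      · exact Or.inr (Or.inl ⟨rfl, mem_nbL.2 ⟨f, hf', rfl, h1, h3⟩, hne.symm⟩)
    · rcases List.mem_cons.1 hf with rfl | hf'
      · exact Or.inr (Or.inr ⟨rfl, mem_nbL.2 ⟨e, he', rfl, h2, h3.symm⟩, hne⟩)
      · exact Or.inl (ih he' hf')

lemma gr_adj_imp {tab : List ℕ} {i : ℕ} {L : List (ℕ × Tr)} {a b : ℕ}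
    (h : (Gr tab i L).Adj a b) : ∃ e ∈ L, ∃ f ∈ L, ((e.1 = a ∧ f.1 = b) ∨ (e.1 = b ∧ f.1 = a)) ∧
      adj tab e.1 f.1 = true ∧ tv e.2 i = tv f.2 i := by
  induction L with
  | nil => exact h.elim
  | cons g t ih =>
    change (Gr tab i t ⊔ starG g.1 {w | w ∈ nbL tab i g t}).Adj a b at h
    rw [SimpleGraph.sup_adj, starG_adj] at h
    rcases h with h | ⟨rfl, h, _⟩ | ⟨rfl, h, _⟩
    · obtain ⟨e, he, f, hf, h'⟩ := ih h
      exact ⟨e, List.mem_cons_of_mem _ he, f, List.mem_cons_of_mem _ hf, h'⟩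
    · obtain ⟨f, hf, h1, h2⟩ := mem_nbL.1 h
      exact ⟨g, List.mem_cons_self .., f, List.mem_cons_of_mem _ hf, Or.inl ⟨rfl, h1⟩, h2⟩
    · obtain ⟨f, hf, h1, h2⟩ := mem_nbL.1 h
      exact ⟨g, List.mem_cons_self .., f, List.mem_cons_of_mem _ hf, Or.inr ⟨rfl, h1⟩, h2⟩

/-! ## the edges of the pattern -/

lemma gt_eq {α : Type} (d : α) (l : List α) (n : ℕ) : gt d l n = l.getD n d := by
  induction l generalizing n with
  | nil => rfl
  | cons x l ih =>
    cases n with
    | zero => rfl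
    | succ n =>
      rw [List.getD_cons_succ]
      exact ih n

lemma fr_append {α β : Type} (f : α → β) (b : List β) (l : List α) :
    fr (fun a r => f a :: r) b l = l.map f ++ b := by
  induction l with
  | nil => rfl
  | cons a l ih =>
    show f a :: fr (fun a r => f a :: r) b l = _
    rw [ih]
    rfl

lemma mem_cycP0 {x0 : ℕ} (t : List ℕ) {a b : ℕ} : ∀ x : ℕ, (a, b) ∈ cycP0 x0 t x ↔
    ∃ k, k < (x :: t).length ∧ (x :: t)[k]? = some a ∧ ((x :: t) ++ [x0])[k + 1]? = some b := by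
  induction t with
  | nil =>
    intro x
    show (a, b) ∈ [(x, x0)] ↔ _
    rw [List.mem_singleton, Prod.mk.injEq]
    constructor
    · rintro ⟨rfl, rfl⟩
      exact ⟨0, by simp, by simp, by simp⟩
    · rintro ⟨k, hk, h1, h2⟩
      have : k = 0 := by simpa using hk
      subst this
      simp only [List.getElem?_cons_zero, Option.some.injEq] at h1
      simp at h2
      exact ⟨h1.symm, h2.symm⟩
  | cons y t ih =>
    intro x
    have h0 : cycP0 x0 (y :: t) x = (x, y) :: cycP0 x0 t y := rfl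
    rw [h0, List.mem_cons, ih y, Prod.mk.injEq]
    constructor
    · rintro (⟨rfl, rfl⟩ | ⟨k, hk, h1, h2⟩)
      · exact ⟨0, by simp, by simp, by simp⟩
      · refine ⟨k + 1, by simpa using hk, ?_, ?_⟩
        · rw [List.getElem?_cons_succ]
          exact h1
        · rw [List.cons_append, List.getElem?_cons_succ]
          exact h2
    · rintro ⟨k, hk, h1, h2⟩
      cases k with
      | zero =>
        simp at h1 h2
        exact Or.inl ⟨h1.symm, h2.symm⟩
      | succ k =>
        refine Or.inr ⟨k, by simpa using hk, ?_, ?_⟩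
        · rw [List.getElem?_cons_succ] at h1
          exact h1
        · rw [List.cons_append, List.getElem?_cons_succ] at h2
          exact h2

lemma mem_cycP {l : List ℕ} {a b : ℕ} : (a, b) ∈ cycP l ↔
    ∃ k, k < l.length ∧ l[k]? = some a ∧ l[(k + 1) % l.length]? = some b := by
  cases l with
  | nil =>
    show (a, b) ∈ ([] : List (ℕ × ℕ)) ↔ _
    simp
  | cons x t =>
    show (a, b) ∈ cycP0 x t x ↔ _
    rw [mem_cycP0]
    refine exists_congr (fun k => ?_)
    constructor
    · rintro ⟨hk, h1, h2⟩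
      refine ⟨hk, h1, ?_⟩
      by_cases hk' : k + 1 < (x :: t).length
      · rw [Nat.mod_eq_of_lt hk']
        rw [List.getElem?_append_left hk'] at h2
        exact h2
      · have : k + 1 = (x :: t).length := by omega
        rw [this, Nat.mod_self]
        rw [this, List.getElem?_append_right le_rfl] at h2
        simpa using h2
    · rintro ⟨hk, h1, h2⟩
      refine ⟨hk, h1, ?_⟩
      by_cases hk' : k + 1 < (x :: t).length
      · rw [Nat.mod_eq_of_lt hk'] at h2
        rw [List.getElem?_append_left hk']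
        exact h2
      · have : k + 1 = (x :: t).length := by omega
        rw [this, Nat.mod_self] at h2
        rw [this, List.getElem?_append_right le_rfl]
        simpa using h2

lemma consIn_iff {l : List ℕ} {a b : ℕ} : ConsIn l a b ↔ ((a, b) ∈ cycP l ∨ (b, a) ∈ cycP l) := by
  rw [mem_cycP, mem_cycP]
  constructor
  · rintro ⟨i, j, hi, hj, rfl, rfl, h | h⟩
    · refine Or.inl ⟨i, hi, List.getElem?_eq_getElem hi, ?_⟩
      rw [← h]
      exact List.getElem?_eq_getElem hj
    · refine Or.inr ⟨j, hj, List.getElem?_eq_getElem hj, ?_⟩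
      rw [← h]
      exact List.getElem?_eq_getElem hi
  · rintro (⟨k, hk, h1, h2⟩ | ⟨k, hk, h1, h2⟩)
    · have hk' : (k + 1) % l.length < l.length := Nat.mod_lt _ (by omega)
      rw [List.getElem?_eq_getElem hk, Option.some.injEq] at h1
      rw [List.getElem?_eq_getElem hk', Option.some.injEq] at h2
      exact ⟨k, (k + 1) % l.length, hk, hk', h1, h2, Or.inl rfl⟩
    · have hk' : (k + 1) % l.length < l.length := Nat.mod_lt _ (by omega)
      rw [List.getElem?_eq_getElem hk, Option.some.injEq] at h1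
      rw [List.getElem?_eq_getElem hk', Option.some.injEq] at h2
      exact ⟨(k + 1) % l.length, k, hk', hk, h2, h1, Or.inr rfl⟩

lemma mem_edgesAux {a b : ℕ} (links : List (List ℕ)) : ∀ v0 : ℕ, (a, b) ∈ edgesAux links v0 ↔
    ∃ i l, links[i]? = some l ∧ ((a = v0 + i ∧ b ∈ l) ∨ (a, b) ∈ cycP l) := by
  induction links with
  | nil =>
    intro v0
    show (a, b) ∈ ([] : List (ℕ × ℕ)) ↔ _
    simp
  | cons l links ih =>
    intro v0
    have h0 : edgesAux (l :: links) v0 = fr (fun a r => (v0, a) :: r)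
      (fr (fun e r => e :: r) (edgesAux links (Nat.succ v0)) (cycP l)) l := rfl
    rw [h0, fr_append (fun a => (v0, a)), fr_append (fun e => e), List.map_id', List.mem_append,
      List.mem_append, ih, List.mem_map]
    constructor
    · rintro (⟨x, hx, h⟩ | h | ⟨i, m, h1, h2⟩)
      · rw [Prod.mk.injEq] at h
        obtain ⟨rfl, rfl⟩ := h
        exact ⟨0, l, by simp, Or.inl ⟨by simp, hx⟩⟩
      · exact ⟨0, l, by simp, Or.inr h⟩
      · refine ⟨i + 1, m, by simpa using h1, ?_⟩
        rcases h2 with ⟨h2, h3⟩ | h2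
        · exact Or.inl ⟨by rw [h2]; omega, h3⟩
        · exact Or.inr h2
    · rintro ⟨i, m, h1, h2⟩
      cases i with
      | zero =>
        simp only [List.getElem?_cons_zero, Option.some.injEq] at h1
        subst h1
        rcases h2 with ⟨h2, h3⟩ | h2
        · exact Or.inl ⟨b, h3, by rw [h2]; rfl⟩
        · exact Or.inr (Or.inl h2)
      | succ i =>
        rw [List.getElem?_cons_succ] at h1
        refine Or.inr (Or.inr ⟨i, m, h1, ?_⟩)
        rcases h2 with ⟨h2, h3⟩ | h2
        · exact Or.inl ⟨by rw [h2]; omega, h3⟩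
        · exact Or.inr h2

lemma mem_edges {P : Pat} {a b : ℕ} : (a, b) ∈ edges P ↔
    ∃ v, v < P.nI ∧ ((a = v ∧ b ∈ P.link v) ∨ (a, b) ∈ cycP (P.link v)) := by
  show (a, b) ∈ edgesAux P.links 0 ↔ _
  rw [mem_edgesAux]
  constructor
  · rintro ⟨i, l, h1, h2⟩
    have hi : i < P.links.length := by
      by_contra h
      rw [List.getElem?_eq_none (by omega)] at h1
      simp at h1
    have hl : P.link i = l := by
      show P.links.getD i [] = l
      rw [List.getD_eq_getElem?_getD, h1]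
      rfl
    rw [Nat.zero_add] at h2
    exact ⟨i, hi, by rw [hl]; exact h2⟩
  · rintro ⟨v, hv, h⟩
    have hv' : v < P.links.length := hv
    refine ⟨v, P.link v, ?_, by rw [Nat.zero_add]; exact h⟩
    show _ = some (P.links.getD v [])
    rw [List.getElem?_eq_getElem hv', List.getD_eq_getElem _ _ hv']

lemma kadj_iff {P : Pat} {a b : ℕ} : P.K.Adj a b ↔ a ≠ b ∧ ((a, b) ∈ edges P ∨
    (b, a) ∈ edges P) := by
  show (a ≠ b ∧ ∃ v, v < P.nI ∧
    ((a = v ∧ b ∈ P.link v) ∨ (b = v ∧ a ∈ P.link v) ∨ ConsIn (P.link v) a b ∨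
      ConsIn (P.link v) b a)) ↔ _
  refine and_congr_right (fun _ => ?_)
  rw [mem_edges, mem_edges]
  constructor
  · rintro ⟨v, hv, h | h | h | h⟩
    · exact Or.inl ⟨v, hv, Or.inl h⟩
    · exact Or.inr ⟨v, hv, Or.inl h⟩
    · rcases consIn_iff.1 h with h | h
      · exact Or.inl ⟨v, hv, Or.inr h⟩
      · exact Or.inr ⟨v, hv, Or.inr h⟩
    · rcases consIn_iff.1 h with h | h
      · exact Or.inr ⟨v, hv, Or.inr h⟩
      · exact Or.inl ⟨v, hv, Or.inr h⟩
  · rintro (⟨v, hv, h | h⟩ | ⟨v, hv, h | h⟩)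
    · exact ⟨v, hv, Or.inl h⟩
    · exact ⟨v, hv, Or.inr (Or.inr (Or.inl (consIn_iff.2 (Or.inl h))))⟩
    · exact ⟨v, hv, Or.inr (Or.inl h)⟩
    · exact ⟨v, hv, Or.inr (Or.inr (Or.inr (consIn_iff.2 (Or.inl h))))⟩

/-! ## the structural checks -/

lemma checkK_spec {P : Pat} {tab lk : List ℕ} (h : checkK (edges P) tab lk = true) {a b : ℕ}
    (hab : P.K.Adj a b) : adj tab a b = true ∧ adj tab b a = true ∧ a ∈ lk ∧ b ∈ lk := by
  have h1 : ∀ e ∈ edges P, and (and (adj tab e.1 e.2) (adj tab e.2 e.1))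
      (and (mem lk e.1) (mem lk e.2)) = true := all_iff.1 h
  rcases (kadj_iff.1 hab).2 with h2 | h2
  · have := h1 _ h2
    simp only [Bool.and_eq_true, mem_iff] at this
    exact ⟨this.1.1, this.1.2, this.2.1, this.2.2⟩
  · have := h1 _ h2
    simp only [Bool.and_eq_true, mem_iff] at this
    exact ⟨this.1.2, this.1.1, this.2.2, this.2.1⟩

lemma checkQ_spec {P : Pat} {tab lq : List ℕ}
    (h : checkQ (fr (fun (e : ℕ × ℕ) r => (gt 0 P.blk e.1, gt 0 P.blk e.2) :: r) [] (edges P))
      tab lq = true) {b c : ℕ} (hb : b ∈ lq) (hc : c ∈ lq) (hbc : adj tab b c = true) :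
    P.Q.Adj b c := by
  have h1 := all_iff.1 (all_iff.1 h b hb) c hc
  rw [hbc, cond_true, Bool.and_eq_true, Bool.not_eq_true', Bool.not_eq_true', ← Bool.not_eq_true,
    ← Bool.not_eq_true, beq_iff, all_iff] at h1
  obtain ⟨hne, h2⟩ := h1
  rw [fr_map (fun e : ℕ × ℕ => (gt 0 P.blk e.1, gt 0 P.blk e.2))] at h2
  rw [Classical.not_forall] at h2
  obtain ⟨e', h2⟩ := h2
  rw [Classical.not_imp] at h2
  obtain ⟨he', h2⟩ := h2
  obtain ⟨⟨x, y⟩, he, rfl⟩ := List.mem_map.1 he'
  rw [Bool.not_eq_true', Bool.not_eq_false, Bool.or_eq_true, Bool.and_eq_true, Bool.and_eq_true,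
    beq_iff, beq_iff, beq_iff, beq_iff] at h2
  have hx : gt 0 P.blk x = P.block x := gt_eq _ _ _
  have hy : gt 0 P.blk y = P.block y := gt_eq _ _ _
  rw [hx, hy] at h2
  refine ⟨hne, ?_⟩
  rcases h2 with ⟨h3, h4⟩ | ⟨h3, h4⟩
  · have hxy : x ≠ y := by
      rintro rfl
      exact hne (h3.symm.trans h4)
    exact ⟨x, y, kadj_iff.2 ⟨hxy, Or.inl he⟩, h3, h4⟩
  · have hxy : y ≠ x := by
      rintro rfl
      exact hne (h4.symm.trans h3)
    exact ⟨y, x, kadj_iff.2 ⟨hxy, Or.inr he⟩, h4, h3⟩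

lemma tri_noncol {G : SimpleGraph ℕ} {c : ℕ → Pt} (hc : Good G c) {x y z : ℕ}
    (hxy : G.Adj x y) (hxz : G.Adj x z) (hyz : G.Adj y z) : NonCol (c x) (c y) (c z) := by
  rintro s ⟨h1, h2⟩
  have := (hc.forest s).cliqueFree (n := 3) le_rfl
  apply this {x, y, z}
  rw [is3Clique_triple_iff]
  exact ⟨⟨hxy, h1⟩, ⟨hxz, h2⟩, ⟨hyz, h1.symm.trans h2⟩⟩

lemma qlabels_mono {t : ℕ × ℕ × ℕ} {s : QStep} {qs : List QStep} {x : ℕ}
    (h : x ∈ qlabels t qs) : x ∈ qlabels t (s :: qs) := List.mem_cons_of_mem _ h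

lemma steps_spec {P : Pat} {tab lq : List ℕ} {c : ℕ → Pt} (hc : Good P.Q c)
    (hadj : ∀ b ∈ lq, ∀ c ∈ lq, adj tab b c = true → P.Q.Adj b c) {t : ℕ × ℕ × ℕ}
    {qs : List QStep} (hl : ∀ x ∈ qlabels t qs, x ∈ lq) (h : checkSteps tab t qs = true) :
    (P.Q.Adj t.1 t.2.1 ∧ P.Q.Adj t.1 t.2.2 ∧ P.Q.Adj t.2.1 t.2.2) ∧ StepsOK c t qs := by
  induction qs with
  | nil =>
    have h0 : checkSteps tab t [] = and (adj tab t.1 t.2.1)
      (and (adj tab t.1 t.2.2) (adj tab t.2.1 t.2.2)) := rfl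
    rw [h0, Bool.and_eq_true, Bool.and_eq_true] at h
    have h1 : t.1 ∈ lq := hl _ (by
      show t.1 ∈ [t.2.2, t.2.1, t.1]
      simp)
    have h2 : t.2.1 ∈ lq := hl _ (by
      show t.2.1 ∈ [t.2.2, t.2.1, t.1]
      simp)
    have h3 : t.2.2 ∈ lq := hl _ (by
      show t.2.2 ∈ [t.2.2, t.2.1, t.1]
      simp)
    exact ⟨⟨hadj _ h1 _ h2 h.1, hadj _ h1 _ h3 h.2.1, hadj _ h2 _ h3 h.2.2⟩, trivial⟩
  | cons s qs ih =>
    have h0 : checkSteps tab t (s :: qs) = and (and (and (adj tab s.b s.A)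
      (mem (qlabels t qs) s.A))
      (cond s.two (and (and (adj tab s.b s.B) (mem (qlabels t qs) s.B))
      (adj tab s.A s.B)) true)) (checkSteps tab t qs) := rfl
    rw [h0, Bool.and_eq_true, Bool.and_eq_true, Bool.and_eq_true, mem_iff] at h
    obtain ⟨⟨⟨h1, h2⟩, h3⟩, h4⟩ := h
    obtain ⟨h5, h6⟩ := ih (fun x hx => hl x (qlabels_mono hx)) h4
    have hb : s.b ∈ lq := hl _ (List.mem_cons_self ..)
    have hA : s.A ∈ lq := hl _ (qlabels_mono h2)
    have hbA := hadj _ hb _ hA h1
    refine ⟨h5, ⟨h2, fun h => hc.proper _ _ hbA h.symm, ?_, ?_, ?_⟩, h6⟩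
    · intro htwo
      rw [htwo, cond_true, Bool.and_eq_true, Bool.and_eq_true, mem_iff] at h3
      exact h3.1.2
    · intro htwo
      rw [htwo, cond_true, Bool.and_eq_true, Bool.and_eq_true, mem_iff] at h3
      have hB : s.B ∈ lq := hl _ (qlabels_mono h3.1.2)
      exact hc.proper _ _ (hadj _ hA _ hB h3.2)
    · intro htwo
      rw [htwo, cond_true, Bool.and_eq_true, Bool.and_eq_true, mem_iff] at h3
      have hB : s.B ∈ lq := hl _ (qlabels_mono h3.1.2)
      exact tri_noncol hc (hadj _ hA _ hB h3.2) hbA.symm (hadj _ hb _ hB h3.1.1).symm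

/-! ## the columns of the configuration -/

lemma ringCols_eq (blk : List ℕ) (Q : Cols) (ring : List ℕ) :
    ringCols blk Q ring = ring.map (fun r => (r, look Q (gt 0 blk r))) :=
  fr_map (fun r => (r, look Q (gt 0 blk r))) ring

lemma ringPairs_eq (blk : List ℕ) (ring : List ℕ) :
    ringPairs blk ring = ring.map (fun r => (r, gt 0 blk r)) :=
  fr_map (fun r => (r, gt 0 blk r)) ring

lemma mem_icols {w : ℕ} {is : List IStep} {L : Cols} {e : ℕ × Pc} (h : e ∈ L) :
    e ∈ icols w is L := by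
  induction is with
  | nil => exact h
  | cons s is ih => exact List.mem_cons_of_mem _ ih

lemma can_icols {w : ℕ} {is : List IStep} {L : Cols} {i : ℕ} (h : ∀ e ∈ L, CanP e.2 i) :
    ∀ e ∈ icols w is L, CanP e.2 i := by
  induction is with
  | nil => exact h
  | cons s is ih =>
    intro e he
    have h0 : icols w (s :: is) L = icol w (icols w is L) s :: icols w is L := rfl
    rw [h0, List.mem_cons] at he
    rcases he with rfl | he
    · exact canP_canP _ _
    · exact ih e he

/-! ## normalized colourings -/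

theorem sound_norm {P : Pat} {C : DCert} (h : domB P C = true) {c : ℕ → Pt} (hc : Good P.Q c)
    (h1 : c C.tri.1 = (0, 0)) (h2 : c C.tri.2.1 = (1, 0)) (h3 : c C.tri.2.2 = (0, 1)) :
    ∃ e : ℕ → Pt, (∀ r, P.IsRing r → e r = c (P.block r)) ∧ Good P.K e ∧
    ∀ s r r', P.IsRing r → P.IsRing r' → (slopeGraph P.K e s).Reachable r r' →
      (slopeGraph P.Q c s).Reachable (P.block r) (P.block r') := by
  set q := qcols C.tri C.qs with hq
  set K := icols C.w C.is (ringCols P.blk q.2 C.ring) with hK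
  have hdom : domB P C = and (checkRing P C) (and
    (domStruct P C (edges P) (labels K) (labels q.2) (ringPairs P.blk C.ring))
    (domCore C (ones q.1) (labels K) (labels q.2) K q.2 (ringPairs P.blk C.ring))) := rfl
  rw [hdom, Bool.and_eq_true, Bool.and_eq_true] at h
  obtain ⟨hring, hstruct, hcore⟩ := h
  have hst : domStruct P C (edges P) (labels K) (labels q.2) (ringPairs P.blk C.ring) =
    and (and (nodup (labels K)) (nodup (labels q.2)))
      (and (and (all (fun e => mem (labels q.2) e.2) (ringPairs P.blk C.ring))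
      (checkSteps C.tabQ C.tri C.qs))
      (and (checkQ (fr (fun e r => (gt 0 P.blk e.1, gt 0 P.blk e.2) :: r) [] (edges P)) C.tabQ
        (labels q.2)) (checkK (edges P) C.tabK (labels K)))) := rfl
  rw [hst, Bool.and_eq_true, Bool.and_eq_true, Bool.and_eq_true, Bool.and_eq_true,
    Bool.and_eq_true, nodup_iff, nodup_iff, all_iff] at hstruct
  obtain ⟨⟨hnK, hnQ⟩, ⟨hRq, hsteps⟩, hcQ, hcK⟩ := hstruct
  have hadjQ : ∀ b ∈ labels q.2, ∀ c ∈ labels q.2, adj C.tabQ b c = true → P.Q.Adj b c :=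
    fun b hb c hc h => checkQ_spec hcQ hb hc h
  have hlq : labels q.2 = qlabels C.tri C.qs := by
    rw [labels_eq, hq, qcols_labels]
  obtain ⟨_, hok⟩ := steps_spec hc hadjQ (t := C.tri) (qs := C.qs)
    (fun x hx => by rw [hlq]; exact hx) hsteps
  obtain ⟨i, hi, hm⟩ := qcols_cover hok h1 h2 h3
  rw [← hq] at hi hm
  rw [labels_eq] at hnK hnQ
  -- the ring columns
  have hblk : ∀ r ∈ C.ring, P.block r ∈ labels q.2 := by
    intro r hr
    have := hRq (r, gt 0 P.blk r) (by
      rw [ringPairs_eq]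
      exact List.mem_map.2 ⟨r, hr, rfl⟩)
    rw [mem_iff] at this
    have hx : gt 0 P.blk r = P.block r := gt_eq _ _ _
    rw [← hx]
    exact this
  have hlookQ : ∀ b ∈ labels q.2, pv (look q.2 b) i = c b ∧ CanP (look q.2 b) i := by
    intro b hb
    rw [labels_eq] at hb
    exact look_spec (Φ := fun p => pv p i = c b ∧ CanP p i) hb
      (fun e he h => by rw [← h]; exact hm e he)
  have hcanK : ∀ f ∈ K, CanP f.2 i := by
    rw [hK]
    refine can_icols ?_
    intro e he
    rw [ringCols_eq] at he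
    obtain ⟨r, hr, rfl⟩ := List.mem_map.1 he
    have hx : gt 0 P.blk r = P.block r := gt_eq _ _ _
    show CanP (look q.2 (gt 0 P.blk r)) i
    rw [hx]
    exact (hlookQ _ (hblk r hr)).2
  have hringK : ∀ r ∈ C.ring, (r, look q.2 (P.block r)) ∈ K := by
    intro r hr
    rw [hK]
    refine mem_icols ?_
    rw [ringCols_eq]
    refine List.mem_map.2 ⟨r, hr, ?_⟩
    have hx : gt 0 P.blk r = P.block r := gt_eq _ _ _
    rw [hx]
  have hSt : St (ones q.1) i K q.2 (ringPairs P.blk C.ring) := by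
    refine ⟨by rw [tb_ones]; simpa using hi, hcanK, fun f hf => (hm f hf).2, hnK, hnQ, ?_⟩
    intro e he
    rw [ringPairs_eq] at he
    obtain ⟨r, hr, rfl⟩ := List.mem_map.1 he
    exact List.mem_map.2 ⟨_, hringK r hr, rfl⟩
  -- the graph `Q` in state `i`
  have hGQ : ∀ s : Fin 4, Gr C.tabQ i (formL s q.2) ≤ slopeGraph P.Q c s := by
    intro s a b hab
    obtain ⟨e, he, f, hf, h4, h5, h6⟩ := gr_adj_imp hab
    rw [formL_eq] at he hf
    obtain ⟨e', he', rfl⟩ := List.mem_map.1 he
    obtain ⟨f', hf', rfl⟩ := List.mem_map.1 hf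
    obtain ⟨e1, e2⟩ := hm e' he'
    obtain ⟨f1, f2⟩ := hm f' hf'
    have hel : e'.1 ∈ labels q.2 := by
      rw [labels_eq]
      exact List.mem_map.2 ⟨e', he', rfl⟩
    have hfl : f'.1 ∈ labels q.2 := by
      rw [labels_eq]
      exact List.mem_map.2 ⟨f', hf', rfl⟩
    have h7 : P.Q.Adj e'.1 f'.1 := hadjQ _ hel _ hfl h5
    have h8 : form s (c e'.1) = form s (c f'.1) := by
      change tv (formT s e'.2) i = tv (formT s f'.2) i at h6
      rw [tv_formT s e2, tv_formT s f2, e1, f1] at h6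
      exact h6
    rcases h4 with ⟨h9, h10⟩ | ⟨h9, h10⟩
    · change e'.1 = a at h9
      change f'.1 = b at h10
      rw [← h9, ← h10]
      exact ⟨h7, h8⟩
    · change e'.1 = b at h9
      change f'.1 = a at h10
      rw [← h9, ← h10]
      exact ⟨h7.symm, h8.symm⟩
  have hprop : q.2.Pairwise (fun e f => adj C.tabQ e.1 f.1 = true → pv e.2 i ≠ pv f.2 i) := by
    refine List.Pairwise.imp_of_mem ?_ (List.pairwise_of_forall_mem_list
      (r := fun _ _ => True) (l := q.2) (fun _ _ _ _ => trivial))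
    intro e f he hf _ h4
    rw [(hm e he).1, (hm f hf).1]
    refine hc.proper _ _ (hadjQ _ ?_ _ ?_ h4)
    · rw [labels_eq]
      exact List.mem_map.2 ⟨e, he, rfl⟩
    · rw [labels_eq]
      exact List.mem_map.2 ⟨f, hf, rfl⟩
  obtain ⟨hKp, hKa, hKr⟩ := core_spec hSt hcore hprop (fun s => (hc.forest s).anti (hGQ s))
  -- the extension
  have hlookK : ∀ f ∈ K, pv (look K f.1) i = pv f.2 i := by
    intro f hf
    refine look_spec (Φ := fun p => pv p i = pv f.2 i) (List.mem_map.2 ⟨f, hf, rfl⟩) ?_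
    intro g hg hgf
    rw [List.inj_on_of_nodup_map hnK hg hf hgf]
  have hGK : ∀ s : Fin 4, slopeGraph P.K (fun x => pv (look K x) i) s ≤
      Gr C.tabK i (formL s K) := by
    rintro s a b ⟨hab, hf⟩
    obtain ⟨h4, h5, h6, h7⟩ := checkK_spec hcK hab
    rw [labels_eq] at h6 h7
    obtain ⟨e, he, rfl⟩ := List.mem_map.1 h6
    obtain ⟨f, hf', rfl⟩ := List.mem_map.1 h7
    change form s (pv (look K e.1) i) = form s (pv (look K f.1) i) at hf
    rw [hlookK e he, hlookK f hf'] at hf
    have h8 : (e.1, formT s e.2) ∈ formL s K := by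
      rw [formL_eq]
      exact List.mem_map.2 ⟨e, he, rfl⟩
    have h9 : (f.1, formT s f.2) ∈ formL s K := by
      rw [formL_eq]
      exact List.mem_map.2 ⟨f, hf', rfl⟩
    refine adj_gr (e := (e.1, formT s e.2)) (f := (f.1, formT s f.2)) h8 h9 hab.ne h4 h5 ?_
    show tv (formT s e.2) i = tv (formT s f.2) i
    rw [tv_formT s (hcanK e he), tv_formT s (hcanK f hf')]
    exact hf
  have hmemR : ∀ r, P.IsRing r → r ∈ C.ring := by
    rintro r ⟨hr1, hr2⟩
    have h4 : all (fun r => or (Nat.blt r P.links.length) (mem C.ring r)) (List.range P.N)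
      = true := hring
    have h5 := all_iff.1 h4 r (List.mem_range.2 hr2)
    rw [Bool.or_eq_true, mem_iff] at h5
    rcases h5 with h5 | h5
    · have h6 : r < P.links.length := by
        have h7 : Nat.ble (r + 1) P.links.length = true := h5
        exact Nat.le_of_ble_eq_true h7
      have : P.nI = P.links.length := rfl
      omega
    · exact h5
  refine ⟨fun x => pv (look K x) i, ?_, ⟨?_, fun s => (hKa s).anti (hGK s)⟩, ?_⟩
  · intro r hr
    have h4 := hringK r (hmemR r hr)
    have h5 := hlookK _ h4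
    show pv (look K r) i = _
    rw [h5]
    exact (hlookQ _ (hblk r (hmemR r hr))).1
  · intro a b hab
    obtain ⟨h4, h5, h6, h7⟩ := checkK_spec hcK hab
    rw [labels_eq] at h6 h7
    obtain ⟨e, he, rfl⟩ := List.mem_map.1 h6
    obtain ⟨f, hf, rfl⟩ := List.mem_map.1 h7
    show pv (look K e.1) i ≠ pv (look K f.1) i
    rw [hlookK e he, hlookK f hf]
    -- both orders
    have h8 : ∀ x ∈ K, ∀ y ∈ K, x ≠ y → (adj C.tabK x.1 y.1 = true ∧ adj C.tabK y.1 x.1 = true) →
        pv x.2 i ≠ pv y.2 i := by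
      have h9 : K.Pairwise (fun x y => (adj C.tabK x.1 y.1 = true ∧ adj C.tabK y.1 x.1 = true) →
        pv x.2 i ≠ pv y.2 i) := hKp.imp (fun h h' => h h'.1)
      intro x hx y hy hxy h10
      haveI : Std.Symm (fun (x y : ℕ × Pc) => (adj C.tabK x.1 y.1 = true ∧
        adj C.tabK y.1 x.1 = true) → pv x.2 i ≠ pv y.2 i) :=
        ⟨fun x y h h' => (h ⟨h'.2, h'.1⟩).symm⟩
      exact List.Pairwise.forall h9 hx hy hxy h10
    refine h8 e he f hf ?_ ⟨h4, h5⟩
    rintro rfl
    exact hab.ne rfl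
  · intro s r r' hr hr' h4
    have h5 := h4.mono (hGK s)
    have h6 : (r, P.block r) ∈ ringPairs P.blk C.ring := by
      rw [ringPairs_eq]
      refine List.mem_map.2 ⟨r, hmemR r hr, ?_⟩
      rw [show gt 0 P.blk r = P.block r from gt_eq _ _ _]
    have h7 : (r', P.block r') ∈ ringPairs P.blk C.ring := by
      rw [ringPairs_eq]
      refine List.mem_map.2 ⟨r', hmemR r' hr', ?_⟩
      rw [show gt 0 P.blk r' = P.block r' from gt_eq _ _ _]
    exact (hKr s _ h6 _ h7 h5).mono (hGQ s)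

/-! ## the general case -/

/-- **Soundness of the domination checker.** -/
theorem domB_sound (hF : FrameStatement) (P : Pat) (C : DCert) (h : domB P C = true) :
    P.Dominated := by
  intro c hc
  -- the first triangle
  have htri : P.Q.Adj C.tri.1 C.tri.2.1 ∧ P.Q.Adj C.tri.1 C.tri.2.2 ∧
      P.Q.Adj C.tri.2.1 C.tri.2.2 := by
    have h' := h
    have hdom : domB P C = and (checkRing P C) (and
      (domStruct P C (edges P) (labels (icols C.w C.is (ringCols P.blk (qcols C.tri C.qs).2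
        C.ring))) (labels (qcols C.tri C.qs).2) (ringPairs P.blk C.ring))
      (domCore C (ones (qcols C.tri C.qs).1) (labels (icols C.w C.is (ringCols P.blk
        (qcols C.tri C.qs).2 C.ring))) (labels (qcols C.tri C.qs).2) (icols C.w C.is
        (ringCols P.blk (qcols C.tri C.qs).2 C.ring)) (qcols C.tri C.qs).2
        (ringPairs P.blk C.ring))) := rfl
    rw [hdom, Bool.and_eq_true, Bool.and_eq_true] at h'
    obtain ⟨_, hstruct, _⟩ := h'
    have hst : domStruct P C (edges P) (labels (icols C.w C.is (ringCols P.blk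
      (qcols C.tri C.qs).2 C.ring))) (labels (qcols C.tri C.qs).2) (ringPairs P.blk C.ring) =
      and (and (nodup (labels (icols C.w C.is (ringCols P.blk
        (qcols C.tri C.qs).2 C.ring)))) (nodup (labels (qcols C.tri C.qs).2)))
        (and (and (all (fun e => mem (labels (qcols C.tri C.qs).2) e.2) (ringPairs P.blk C.ring))
        (checkSteps C.tabQ C.tri C.qs))
        (and (checkQ (fr (fun e r => (gt 0 P.blk e.1, gt 0 P.blk e.2) :: r) [] (edges P)) C.tabQ
          (labels (qcols C.tri C.qs).2)) (checkK (edges P) C.tabK (labels (icols C.w C.is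
            (ringCols P.blk (qcols C.tri C.qs).2 C.ring)))))) := rfl
    rw [hst, Bool.and_eq_true, Bool.and_eq_true, Bool.and_eq_true, Bool.and_eq_true,
      Bool.and_eq_true] at hstruct
    obtain ⟨_, ⟨_, hsteps⟩, hcQ, _⟩ := hstruct
    exact (steps_spec hc (fun b hb c hc h => checkQ_spec hcQ hb hc h)
      (fun x hx => by rw [labels_eq, qcols_labels]; exact hx) hsteps).1
  obtain ⟨t1, t2, t3⟩ := htri
  obtain ⟨g, g1, g2, g3, π, hπ⟩ := hF.2 (c C.tri.1) (c C.tri.2.1) (c C.tri.2.2)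
    (0, 0) (1, 0) (0, 1) (hc.proper _ _ t1) (hc.proper _ _ t2) (hc.proper _ _ t3)
    (by decide) (by decide) (by decide) (tri_noncol hc t1 t2 t3) (by decide)
  have hQs : ∀ s, slopeGraph P.Q (fun x => g (c x)) s = slopeGraph P.Q c (π s) := by
    intro s
    ext a b
    exact and_congr_right (fun _ => hπ s _ _)
  have hc' : Good P.Q (fun x => g (c x)) := by
    refine ⟨fun u v huv h => hc.proper u v huv (g.injective h), fun s => ?_⟩
    rw [hQs]
    exact hc.forest _
  obtain ⟨e, he1, he2, he3⟩ := sound_norm h hc' g1 g2 g3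
  have hKs : ∀ s, slopeGraph P.K (fun x => g.symm (e x)) (π s) = slopeGraph P.K e s := by
    intro s
    ext a b
    refine and_congr_right (fun _ => ?_)
    have := hπ s (g.symm (e a)) (g.symm (e b))
    rw [g.apply_symm_apply, g.apply_symm_apply] at this
    exact this.symm
  have hKs' : ∀ s, slopeGraph P.K (fun x => g.symm (e x)) s = slopeGraph P.K e (π.symm s) := by
    intro s
    rw [← hKs, π.apply_symm_apply]
  refine ⟨fun x => g.symm (e x), ?_, ⟨?_, ?_⟩, ?_⟩
  · intro r hr
    show g.symm (e r) = _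
    rw [he1 r hr, g.symm_apply_apply]
  · intro u v huv h
    exact he2.proper u v huv (g.symm.injective h)
  · intro s
    rw [hKs']
    exact he2.forest _
  · intro s r r' hr hr' h4
    rw [hKs'] at h4
    have h5 := he3 _ r r' hr hr' h4
    rw [hQs, π.apply_symm_apply] at h5
    exact h5

end StrongArb.H69
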