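import Pool.Agent.Lib.MP_39c2b7_co.Defs

/-!
# Adding a vertex to a graph: reachability and acyclicity
-/

set_option linter.all false

namespace StrongArb.H69

open SimpleGraph

variable {V : Type}

/-- the star with centre `v` and leaves `S` -/
def starG (v : V) (S : Set V) : SimpleGraph V where
  Adj a b := (a = v ∧ b ∈ S ∧ b ≠ v) ∨ (b = v ∧ a ∈ S ∧ a ≠ v)
  symm := ⟨fun _ _ h => by tauto⟩
  loopless := ⟨fun _ h => by rcases h with ⟨h1, _, h2⟩ | ⟨h1, _, h2⟩ <;> exact h2 h1⟩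

lemma starG_adj {v : V} {S : Set V} {a b : V} : (starG v S).Adj a b ↔
    (a = v ∧ b ∈ S ∧ b ≠ v) ∨ (b = v ∧ a ∈ S ∧ a ≠ v) := Iff.rfl

lemma reach_aux {G : SimpleGraph V} {v : V} {S : Set V} (hv : ∀ x, ¬ G.Adj v x) (hS : v ∉ S)
    {x y : V} (hx : x ≠ v) (h : (G ⊔ starG v S).Reachable x y) :
    (y ≠ v → G.Reachable x y ∨ ((∃ a ∈ S, G.Reachable x a) ∧ ∃ b ∈ S, G.Reachable b y)) ∧
      (y = v → ∃ a ∈ S, G.Reachable x a) := by
  rw [SimpleGraph.reachable_iff_reflTransGen] at h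
  induction h with
  | refl => exact ⟨fun _ => Or.inl (Reachable.refl _), fun h => (hx h).elim⟩
  | tail _ hadj ih =>
    rename_i y z _
    obtain ⟨ih1, ih2⟩ := ih
    rw [SimpleGraph.sup_adj, starG_adj] at hadj
    rcases hadj with hadj | ⟨rfl, hz, hzv⟩ | ⟨rfl, hy, hyv⟩
    · have hyv : y ≠ v := by
        rintro rfl
        exact hv _ hadj
      have hzv : z ≠ v := by
        rintro rfl
        exact hv _ hadj.symm
      refine ⟨fun _ => ?_, fun h => (hzv h).elim⟩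
      rcases ih1 hyv with h | ⟨h, b, hb, hb'⟩
      · exact Or.inl (h.trans hadj.reachable)
      · exact Or.inr ⟨h, b, hb, hb'.trans hadj.reachable⟩
    · exact ⟨fun _ => Or.inr ⟨ih2 rfl, z, hz, Reachable.refl _⟩, fun h => (hzv h).elim⟩
    · refine ⟨fun h => (h rfl).elim, fun _ => ?_⟩
      rcases ih1 hyv with h | ⟨h, _⟩
      · exact ⟨y, hy, h⟩
      · exact h

lemma reach_star_iff {G : SimpleGraph V} {v : V} {S : Set V} (hv : ∀ x, ¬ G.Adj v x)
    (hS : v ∉ S) {x y : V} (hx : x ≠ v) (hy : y ≠ v) :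
    (G ⊔ starG v S).Reachable x y ↔
      (G.Reachable x y ∨ ((∃ a ∈ S, G.Reachable a x) ∧ ∃ b ∈ S, G.Reachable b y)) := by
  constructor
  · intro h
    rcases (reach_aux hv hS hx h).1 hy with h | ⟨⟨a, ha, h⟩, h'⟩
    · exact Or.inl h
    · exact Or.inr ⟨⟨a, ha, h.symm⟩, h'⟩
  · have hmono : ∀ {a b}, G.Reachable a b → (G ⊔ starG v S).Reachable a b :=
      fun h => h.mono le_sup_left
    have hadj : ∀ a ∈ S, (G ⊔ starG v S).Adj v a := fun a ha =>
      Or.inr (Or.inl ⟨rfl, ha, fun h => hS (h ▸ ha)⟩)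
    rintro (h | ⟨⟨a, ha, h⟩, b, hb, h'⟩)
    · exact hmono h
    · exact (hmono h.symm).trans (((hadj a ha).symm.reachable.trans (hadj b hb).reachable).trans
        (hmono h'))

lemma reach_center_iff {G : SimpleGraph V} {v : V} {S : Set V} (hv : ∀ x, ¬ G.Adj v x)
    (hS : v ∉ S) {x : V} (hx : x ≠ v) :
    (G ⊔ starG v S).Reachable v x ↔ ∃ a ∈ S, G.Reachable a x := by
  constructor
  · intro h
    obtain ⟨a, ha, h⟩ := (reach_aux hv hS hx h.symm).2 rfl
    exact ⟨a, ha, h.symm⟩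
  · rintro ⟨a, ha, h⟩
    have h1 : (G ⊔ starG v S).Adj v a := Or.inr (Or.inl ⟨rfl, ha, fun h => hS (h ▸ ha)⟩)
    exact h1.reachable.trans (h.mono le_sup_left)

lemma acyclic_star_of {G : SimpleGraph V} {v : V} (hv : ∀ x, ¬ G.Adj v x) (hG : G.IsAcyclic)
    (l : List V) (hl : v ∉ l) (h : ∀ a ∈ l, ∀ b ∈ l, a ≠ b → ¬ G.Reachable a b) :
    (G ⊔ starG v {x | x ∈ l}).IsAcyclic := by
  induction l with
  | nil =>
    have : G ⊔ starG v {x | x ∈ ([] : List V)} = G := by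
      ext a b
      simp [starG_adj]
    rw [this]
    exact hG
  | cons a l ih =>
    have hal : a ≠ v := fun h => hl (h ▸ List.mem_cons_self ..)
    have hl' : v ∉ l := fun h => hl (List.mem_cons_of_mem _ h)
    have ih' := ih hl' (fun x hx y hy => h x (List.mem_cons_of_mem _ hx) y
      (List.mem_cons_of_mem _ hy))
    by_cases ha : a ∈ l
    · have : ({x | x ∈ a :: l} : Set V) = {x | x ∈ l} := by
        ext x
        simp only [List.mem_cons, Set.mem_setOf_eq]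
        constructor
        · rintro (rfl | h)
          · exact ha
          · exact h
        · exact Or.inr
      rw [this]
      exact ih'
    · have e : G ⊔ starG v {x | x ∈ a :: l} = (G ⊔ starG v {x | x ∈ l}) ⊔ edge v a := by
        ext x y
        simp only [SimpleGraph.sup_adj, starG_adj, SimpleGraph.edge_adj, List.mem_cons,
          Set.mem_setOf_eq]
        constructor
        · rintro (h | ⟨rfl, (rfl | h1), h2⟩ | ⟨rfl, (rfl | h1), h2⟩)
          · exact Or.inl (Or.inl h)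
          · exact Or.inr ⟨Or.inl ⟨rfl, rfl⟩, fun h => h2 h.symm⟩
          · exact Or.inl (Or.inr (Or.inl ⟨rfl, h1, h2⟩))
          · exact Or.inr ⟨Or.inr ⟨rfl, rfl⟩, h2⟩
          · exact Or.inl (Or.inr (Or.inr ⟨rfl, h1, h2⟩))
        · rintro ((h | ⟨rfl, h1, h2⟩ | ⟨rfl, h1, h2⟩) | ⟨(⟨rfl, rfl⟩ | ⟨rfl, rfl⟩), h2⟩)
          · exact Or.inl h
          · exact Or.inr (Or.inl ⟨rfl, Or.inr h1, h2⟩)
          · exact Or.inr (Or.inr ⟨rfl, Or.inr h1, h2⟩)
          · exact Or.inr (Or.inl ⟨rfl, Or.inl rfl, hal⟩)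
          · exact Or.inr (Or.inr ⟨rfl, Or.inl rfl, hal⟩)
      rw [e]
      apply IsAcyclic.sup_edge_of_not_reachable _ ih'
      intro hr
      rw [reach_center_iff hv (by simpa using hl') hal] at hr
      obtain ⟨b, hb, hba⟩ := hr
      have hb' : b ∈ l := hb
      exact h b (List.mem_cons_of_mem _ hb') a (List.mem_cons_self ..)
        (fun h => ha (h ▸ hb')) hba

lemma acyclic_star_imp {G : SimpleGraph V} {v : V} {S : Set V} (hv : ∀ x, ¬ G.Adj v x)
    (hS : v ∉ S) (h : (G ⊔ starG v S).IsAcyclic) {a b : V} (ha : a ∈ S) (hb : b ∈ S)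
    (hab : a ≠ b) : ¬ G.Reachable a b := by
  intro hr
  have hva : (G ⊔ starG v S).Adj v a := Or.inr (Or.inl ⟨rfl, ha, fun h => hS (h ▸ ha)⟩)
  have hvb : (G ⊔ starG v S).Adj v b := Or.inr (Or.inl ⟨rfl, hb, fun h => hS (h ▸ hb)⟩)
  have h1 := (isAcyclic_iff_forall_adj_isBridge.1 h) hva
  rw [isBridge_iff] at h1
  apply h1
  have h2 : ((G ⊔ starG v S).deleteEdges {s(v, a)}).Reachable v b := by
    apply Adj.reachable
    rw [SimpleGraph.deleteEdges_adj]
    refine ⟨hvb, ?_⟩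
    intro h3
    rw [Set.mem_singleton_iff, Sym2.eq_iff] at h3
    rcases h3 with ⟨_, h3⟩ | ⟨h3, h4⟩
    · exact hab h3.symm
    · exact hS (h3 ▸ ha)
  refine h2.trans (hr.symm.mono ?_)
  intro x y hxy
  rw [SimpleGraph.deleteEdges_adj]
  refine ⟨Or.inl hxy, ?_⟩
  intro h3
  rw [Set.mem_singleton_iff, Sym2.eq_iff] at h3
  rcases h3 with ⟨rfl, _⟩ | ⟨_, rfl⟩
  · exact hv _ hxy
  · exact hv _ hxy.symm

end StrongArb.H69
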